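import Pool.Agent.Helper14.LE.Defs
import Pool.Agent.Helper14.LK.Basic

/-!
Project LE (MP_58b586_gt): basic lemmas about the coordinates `hd`, `lt`, `mk`, `cc`, `dd`, `zz`, `pl`.
-/

set_option autoImplicit false

open MeasureTheory
open scoped ContDiff

namespace Pool.Agent.Helper14.LE

open Pool.Agent.Helper14.LK

variable {k : ℕ}

@[simp] theorem hd_apply (x : EE (k + 1)) (i : Fin k) : hd x i = x i.castSucc := rfl

@[simp] theorem lt_apply (x : EE (k + 1)) : lt x = x (Fin.last k) := rfl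

theorem mk_castSucc (p : EE k × ℝ) (i : Fin k) : mk p i.castSucc = p.1 i := by
  show (Fin.snoc (fun i : Fin k => p.1 i) p.2 : Fin (k + 1) → ℝ) i.castSucc = p.1 i
  simp

theorem mk_last (p : EE k × ℝ) : mk p (Fin.last k) = p.2 := by
  show (Fin.snoc (fun i : Fin k => p.1 i) p.2 : Fin (k + 1) → ℝ) (Fin.last k) = p.2
  simp

@[simp] theorem hd_mk (p : EE k × ℝ) : hd (mk p) = p.1 := by
  ext i; rw [hd_apply, mk_castSucc]

@[simp] theorem lt_mk (p : EE k × ℝ) : lt (mk p) = p.2 := by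
  rw [lt_apply, mk_last]

@[simp] theorem mk_hd_lt (x : EE (k + 1)) : mk (hd x, lt x) = x := by
  ext i
  refine Fin.lastCases ?_ (fun j => ?_) i
  · rw [mk_last, lt_apply]
  · rw [mk_castSucc, hd_apply]

theorem ext_hd_lt {x y : EE (k + 1)} (h1 : hd x = hd y) (h2 : lt x = lt y) : x = y := by
  rw [← mk_hd_lt x, ← mk_hd_lt y, h1, h2]

theorem inner_eq (x y : EE (k + 1)) :
    inner ℝ x y = inner ℝ (hd x) (hd y) + lt x * lt y := by
  simp only [PiLp.inner_apply, RCLike.inner_apply, conj_trivial, Fin.sum_univ_castSucc, hd_apply,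
    lt_apply]
  ring

theorem norm_sq_eq (x : EE (k + 1)) : ‖x‖ ^ 2 = ‖hd x‖ ^ 2 + (lt x) ^ 2 := by
  rw [← real_inner_self_eq_norm_sq, inner_eq, real_inner_self_eq_norm_sq]; ring

theorem norm_hd_le (x : EE (k + 1)) : ‖hd x‖ ≤ ‖x‖ := by
  apply le_of_sq_le_sq _ (norm_nonneg _)
  rw [norm_sq_eq x]; nlinarith [sq_nonneg (lt x)]

theorem abs_lt_le (x : EE (k + 1)) : |lt x| ≤ ‖x‖ := by
  apply le_of_sq_le_sq _ (norm_nonneg _)
  rw [sq_abs, norm_sq_eq x]; nlinarith [sq_nonneg ‖hd x‖]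

theorem norm_le_add (x : EE (k + 1)) : ‖x‖ ≤ ‖hd x‖ + |lt x| := by
  apply le_of_sq_le_sq _ (by positivity)
  rw [norm_sq_eq x, add_sq, sq_abs]
  nlinarith [mul_nonneg (norm_nonneg (hd x)) (abs_nonneg (lt x))]

@[simp] theorem cc_apply (w : WW (k + 1)) : cc w = hd w.1 := rfl

@[simp] theorem dd_apply (w : WW (k + 1)) : dd w = hd w.2 := rfl

theorem zz_apply (w : WW (k + 1)) : zz w = (lt w.1 : ℂ) + Complex.I * (lt w.2 : ℂ) := rfl

@[simp] theorem zz_re (w : WW (k + 1)) : (zz w).re = lt w.1 := by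
  rw [zz_apply]; simp

@[simp] theorem zz_im (w : WW (k + 1)) : (zz w).im = lt w.2 := by
  rw [zz_apply]; simp

@[simp] theorem cc_pl (c d : EE k) (z : ℂ) : cc (pl c d z) = c := by simp [pl]

@[simp] theorem dd_pl (c d : EE k) (z : ℂ) : dd (pl c d z) = d := by simp [pl]

@[simp] theorem zz_pl (c d : EE k) (z : ℂ) : zz (pl c d z) = z := by
  apply Complex.ext
  · rw [zz_re]; simp only [pl, lt_mk]
  · rw [zz_im]; simp only [pl, lt_mk]

theorem ext_cdz {a b : WW (k + 1)} (h1 : cc a = cc b) (h2 : dd a = dd b) (h3 : zz a = zz b) :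
    a = b := by
  have h4 : lt a.1 = lt b.1 := by rw [← zz_re, ← zz_re, h3]
  have h5 : lt a.2 = lt b.2 := by rw [← zz_im, ← zz_im, h3]
  exact Prod.ext (ext_hd_lt h1 h4) (ext_hd_lt h2 h5)

@[simp] theorem pl_cdz (a : WW (k + 1)) : pl (cc a) (dd a) (zz a) = a :=
  ext_cdz (cc_pl _ _ _) (dd_pl _ _ _) (zz_pl _ _ _)

theorem pl_std (c : EE k) (s : ℝ) : pl c 0 (s : ℂ) = (mk (c, s), (0 : EE (k + 1))) := by
  refine Prod.ext ?_ ?_
  · simp [pl]
  · show mk ((0 : EE k), ((s : ℂ)).im) = 0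
    rw [Complex.ofReal_im]
    exact map_zero mk

theorem om_eq (a b : WW (k + 1)) :
    om a b = inner ℝ (cc a) (dd b) - inner ℝ (dd a) (cc b) + ar (zz a) (zz b) := by
  rw [om, inner_eq, inner_eq, ar, zz_re, zz_im, zz_re, zz_im, cc_apply, cc_apply, dd_apply, dd_apply]
  ring

/-- `ar` as a formula with complex multiplication -/
theorem ar_eq (v w : ℂ) : ar v w = ((starRingEnd ℂ) v * w).im := by
  simp [ar]; ring

end Pool.Agent.Helper14.LE
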