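import Pool.Agent.Helper14.LK.Defs

/-!
Project LE (MP_58b586_gt): local Lagrangian knots whose projection along an `(n-1)`-dimensional isotropic
subspace is an embedding.  Definitions.

`n = k + 1`.  A point of `ℝ²ⁿ` is written `pl c d z`: `x = (c, Re z)`, `y = (d, Im z)`.
-/

set_option autoImplicit false

open MeasureTheory
open scoped ContDiff

namespace Pool.Agent.Helper14.LE

open Pool.Agent.Helper14.LK

/-- the first `k` coordinates -/
noncomputable def hd {k : ℕ} : EE (k + 1) →L[ℝ] EE k :=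
  LinearMap.toContinuousLinearMap
    { toFun := fun x => WithLp.toLp 2 (fun i : Fin k => x i.castSucc)
      map_add' := fun x y => by ext i; simp
      map_smul' := fun r x => by ext i; simp }

/-- the last coordinate -/
noncomputable def lt {k : ℕ} : EE (k + 1) →L[ℝ] ℝ :=
  LinearMap.toContinuousLinearMap
    { toFun := fun x => x (Fin.last k)
      map_add' := fun x y => by simp
      map_smul' := fun r x => by simp }

/-- the point with first coordinates `p.1` and last coordinate `p.2` -/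
noncomputable def mk {k : ℕ} : EE k × ℝ →L[ℝ] EE (k + 1) :=
  LinearMap.toContinuousLinearMap
    { toFun := fun p => WithLp.toLp 2 (Fin.snoc (fun i : Fin k => p.1 i) p.2 : Fin (k + 1) → ℝ)
      map_add' := fun p q => by
        ext i
        refine Fin.lastCases ?_ (fun j => ?_) i <;> simp
      map_smul' := fun r p => by
        ext i
        refine Fin.lastCases ?_ (fun j => ?_) i <;> simp }

/-- the coordinates `x₁, …, x_k` -/
noncomputable def cc {k : ℕ} : WW (k + 1) →L[ℝ] EE k := hd.comp (ContinuousLinearMap.fst ℝ _ _)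

/-- the coordinates `y₁, …, y_k` -/
noncomputable def dd {k : ℕ} : WW (k + 1) →L[ℝ] EE k := hd.comp (ContinuousLinearMap.snd ℝ _ _)

/-- the coordinate `x_n + i y_n` -/
noncomputable def zz {k : ℕ} : WW (k + 1) →L[ℝ] ℂ :=
  (Complex.ofRealCLM.comp (lt.comp (ContinuousLinearMap.fst ℝ _ _))) +
    (Complex.I • Complex.ofRealCLM.comp (lt.comp (ContinuousLinearMap.snd ℝ _ _)))

/-- the point with coordinates `c`, `d`, `z` -/
noncomputable def pl {k : ℕ} (c d : EE k) (z : ℂ) : WW (k + 1) := (mk (c, z.re), mk (d, z.im))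

/-- the oriented area of the parallelogram spanned by `v` and `w` -/
noncomputable def ar (v w : ℂ) : ℝ := v.re * w.im - v.im * w.re

/-- a planar vector field with parameter `p`, without zeros, equal to `1` for large `z` and for large `p` -/
structure PF {E : Type} [NormedAddCommGroup E] [NormedSpace ℝ E] (V : E → ℂ → ℂ) (R : ℝ) : Prop where
  pos : 0 < R
  smooth : ContDiff ℝ ∞ (Function.uncurry V)
  ne : ∀ p z, V p z ≠ 0
  far : ∀ p z, R ≤ ‖z‖ → V p z = 1
  farp : ∀ p z, R ≤ ‖p‖ → V p z = 1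

/-- the flow of `V p`, time `s` -/
structure PFl {E : Type} [NormedAddCommGroup E] [NormedSpace ℝ E] (V : E → ℂ → ℂ)
    (Φ : E → ℝ → ℂ → ℂ) : Prop where
  smooth : ContDiff ℝ ∞ (fun q : E × ℝ × ℂ => Φ q.1 q.2.1 q.2.2)
  zero : ∀ p z, Φ p 0 z = z
  deriv : ∀ p s z, HasDerivAt (fun r => Φ p r z) (V p (Φ p s z)) s
  add : ∀ p s r z, Φ p (s + r) z = Φ p s (Φ p r z)

/-- every backward trajectory of `V p` reaches the half plane `Re z ≤ -R` -/
def Good {E : Type} (Φ : E → ℝ → ℂ → ℂ) (R : ℝ) (p : E) : Prop :=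
  ∀ z, ‖z‖ ≤ R → ∃ T : ℝ, 0 ≤ T ∧ (Φ p (-T) z).re ≤ -R

/-- a smooth family of long embedded curves in the plane, equal to `s ↦ s` for large `p` and for large
`s`, enclosing total area `0` -/
structure LC {E : Type} [NormedAddCommGroup E] [NormedSpace ℝ E] (ζ : E → ℝ → ℂ) (S : ℝ) : Prop where
  pos : 0 < S
  smooth : ContDiff ℝ ∞ (Function.uncurry ζ)
  inj : ∀ p, Function.Injective (ζ p)
  ne : ∀ p s, deriv (ζ p) s ≠ 0
  far : ∀ p s, S ≤ |s| → ζ p s = s
  farp : ∀ p s, S ≤ ‖p‖ → ζ p s = s
  area : ∀ p, ∫ s in Set.Icc (-S) S, (ζ p s).im * (deriv (ζ p) s).re = 0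

end Pool.Agent.Helper14.LE
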