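import Pool.Agent.Helper14.LK.Defs

/-!
Project LE (MP_58b586_gt): definitions used in the statement of the result (besides those of
Pool.Agent.Helper14.LK.Defs).
-/

set_option autoImplicit false

namespace Pool.Agent.Helper14.LE

open Pool.Agent.Helper14.LK

/-- the linear subspace `V` of `ℝ²ⁿ` is isotropic -/
def IsoSub {n : ℕ} (V : Submodule ℝ (WW n)) : Prop := ∀ a ∈ V, ∀ b ∈ V, om a b = 0

/-- the composition of `ι` with the projection `ℝ²ⁿ → ℝ²ⁿ / V` is an immersion -/
def ProjImm {n : ℕ} (V : Submodule ℝ (WW n)) (ι : EE n → WW n) : Prop :=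
  ∀ x u, fderiv ℝ ι x u ∈ V → u = 0

/-- the composition of `ι` with the projection `ℝ²ⁿ → ℝ²ⁿ / V` is injective -/
def ProjInj {n : ℕ} (V : Submodule ℝ (WW n)) (ι : EE n → WW n) : Prop :=
  ∀ x x', ι x - ι x' ∈ V → x = x'

end Pool.Agent.Helper14.LE
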