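import Pool.Agent.Helper14.LE.St

set_option autoImplicit false

namespace Pool.Agent.Helper14.LE

open Pool.Agent.Helper14.LK
open scoped ContDiff Topology
open MeasureTheory Set Filter

/-- conjugation of a Hamiltonian isotopy by a linear symplectic map -/
theorem ham_conj {n : ℕ} (T : WW n ≃L[ℝ] WW n) (hT : ∀ a b, om (T a) (T b) = om a b)
    {A B : Set (WW n)} (h : HamIsotopic A B) : HamIsotopic (T.symm '' A) (T.symm '' B) := by
  obtain ⟨H, φ, ⟨hH, ⟨C, hC, hHC⟩, hφ0, hφ⟩, hAB⟩ := h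
  refine ⟨fun t w => H t (T w), fun t w => T.symm (φ t (T w)), ⟨?_, ?_, ?_, ?_⟩, ?_⟩
  · have : ContDiff ℝ ∞ (fun q : ℝ × WW n => (q.1, T q.2)) :=
      contDiff_fst.prodMk (T.contDiff.comp contDiff_snd)
    exact hH.comp this
  · refine ⟨T.symm '' C, hC.image T.symm.continuous, fun t w hw => hHC t _ fun hTw => hw ?_⟩
    exact ⟨T w, hTw, T.symm_apply_apply w⟩
  · intro w
    simp only [hφ0, ContinuousLinearEquiv.symm_apply_apply]
  · intro t w
    obtain ⟨v, hv, hvb⟩ := hφ t (T w)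
    refine ⟨T.symm v, ?_, fun b => ?_⟩
    · exact (T.symm : WW n →L[ℝ] WW n).hasFDerivAt.comp_hasDerivAt t hv
    · have h1 : om (T.symm v) b = om v (T b) := by
        rw [← hT (T.symm v) b, T.apply_symm_apply]
      have hHt : ContDiff ℝ ∞ (H t) := hH.comp (contDiff_const.prodMk contDiff_id)
      have h2 : HasFDerivAt (fun w => H t (T w))
          ((fderiv ℝ (H t) (T (T.symm (φ t (T w))))).comp (T : WW n →L[ℝ] WW n))
          (T.symm (φ t (T w))) :=
        (hHt.differentiable (by simp) _).hasFDerivAt.comp _ (T : WW n →L[ℝ] WW n).hasFDerivAt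
      rw [h1, hvb, h2.fderiv, T.apply_symm_apply]
      rfl
  · rw [← hAB]
    ext w
    constructor
    · rintro ⟨_, ⟨a, ha, rfl⟩, rfl⟩
      refine ⟨φ 1 a, ⟨a, ha, rfl⟩, ?_⟩
      simp only [ContinuousLinearEquiv.apply_symm_apply]
    · rintro ⟨_, ⟨a, ha, rfl⟩, rfl⟩
      refine ⟨T.symm a, ⟨a, ha, rfl⟩, ?_⟩
      simp only [ContinuousLinearEquiv.apply_symm_apply]

theorem hFIN (hNRL : StNRL) (hT0 : StT0) : StT := by
  intro n hn V hV hdim ι hι hiso hstd himm hinj
  obtain ⟨k, rfl⟩ : ∃ k, n = k + 1 := ⟨n - 1, by omega⟩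
  have hk : 1 ≤ k := by omega
  obtain ⟨R, hR⟩ := hstd
  have hplane : ∀ u : EE (k + 1), ((u, 0) : WW (k + 1)) ∈ V → u = 0 := by
    intro u hu
    by_contra hne
    have hn0 : 0 < ‖u‖ := norm_pos_iff.mpr hne
    obtain ⟨m, hm⟩ := exists_gt ((|R| + 1) / ‖u‖)
    set x : EE (k + 1) := m • u with hx
    have hm0 : 0 < m := lt_of_le_of_lt (by positivity) hm
    have hxR : R < ‖x‖ := by
      rw [hx, norm_smul, Real.norm_eq_abs, abs_of_pos hm0]
      rw [div_lt_iff₀ hn0] at hm
      linarith [le_abs_self R]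
    have hev : ι =ᶠ[𝓝 x] fun x => ((x, 0) : WW (k + 1)) := by
      filter_upwards [(isOpen_lt continuous_const continuous_norm).mem_nhds hxR] with y hy
      exact hR y (le_of_lt hy)
    have hd1 : HasFDerivAt (fun x : EE (k + 1) => ((x, 0) : WW (k + 1)))
        ((ContinuousLinearMap.id ℝ (EE (k + 1))).prod 0) x :=
      (hasFDerivAt_id x).prodMk (hasFDerivAt_const (0 : EE (k + 1)) x)
    have hd2 : fderiv ℝ ι x u = (u, 0) := by
      rw [hev.fderiv_eq, hd1.fderiv]; rfl
    exact hne (himm x u (by rw [hd2]; exact hu))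
  obtain ⟨T, U, hTom, hTU, hTV⟩ := hNRL k V hV (by omega) hplane
  set ι' : EE (k + 1) → WW (k + 1) := fun x => T (ι (U.symm x)) with hι'
  have hU : ContDiff ℝ ∞ (fun x => U.symm x) := U.symm.contDiff
  have hι's : ContDiff ℝ ∞ ι' := T.contDiff.comp (hι.comp hU)
  have hder : ∀ x u, fderiv ℝ ι' x u = T (fderiv ℝ ι (U.symm x) (U.symm u)) := by
    intro x u
    have h1 : HasFDerivAt ι' ((T : WW (k + 1) →L[ℝ] WW (k + 1)).comp
        ((fderiv ℝ ι (U.symm x)).comp
          (U.symm.toContinuousLinearEquiv : EE (k + 1) →L[ℝ] EE (k + 1)))) x := by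
      have h2 : HasFDerivAt (fun x => U.symm x)
          (U.symm.toContinuousLinearEquiv : EE (k + 1) →L[ℝ] EE (k + 1)) x :=
        U.symm.toContinuousLinearEquiv.hasFDerivAt
      exact (T : WW (k + 1) →L[ℝ] WW (k + 1)).hasFDerivAt.comp x
        (((hι.differentiable (by simp) (U.symm x)).hasFDerivAt).comp x h2)
    rw [h1.fderiv]
    rfl
  have hmain : HamIsotopic (Plane (k + 1)) (Set.range ι') := by
    apply hT0 k hk ι' hι's
    · intro x u v
      rw [hder, hder, hTom]
      exact hiso _ _ _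
    · refine ⟨R, fun x hx => ?_⟩
      show T (ι (U.symm x)) = (x, 0)
      rw [hR _ (by rw [U.symm.norm_map]; exact hx), hTU, U.apply_symm_apply]
    · intro x u h1 h2
      rw [hder] at h1 h2
      have h3 := himm _ _ (hTV _ h1 h2)
      have h4 : U (U.symm u) = U 0 := by rw [h3]
      rwa [U.apply_symm_apply, map_zero] at h4
    · intro x x' h1 h2
      have h3 : cc (T (ι (U.symm x) - ι (U.symm x'))) = 0 := by
        rw [map_sub, map_sub, sub_eq_zero]; exact h1
      have h4 : zz (T (ι (U.symm x) - ι (U.symm x'))) = 0 := by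
        rw [map_sub, map_sub, sub_eq_zero]; exact h2
      have h5 := hinj _ _ (hTV _ h3 h4)
      exact U.symm.injective h5
  have hfin := ham_conj T hTom hmain
  have hP : T.symm '' Plane (k + 1) = Plane (k + 1) := by
    ext w
    constructor
    · rintro ⟨a, ha, rfl⟩
      have ha2 : a.2 = 0 := ha
      have h1 : a = T (U.symm a.1, 0) := by
        rw [hTU, U.apply_symm_apply]
        exact Prod.ext rfl ha2
      rw [h1, T.symm_apply_apply]
      rfl
    · intro hw
      have hw2 : w.2 = 0 := hw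
      refine ⟨T w, ?_, T.symm_apply_apply w⟩
      have h1 : w = (w.1, 0) := Prod.ext rfl hw2
      rw [h1, hTU]
      rfl
  have hr : T.symm '' Set.range ι' = Set.range ι := by
    ext w
    constructor
    · rintro ⟨_, ⟨x, rfl⟩, rfl⟩
      exact ⟨U.symm x, (T.symm_apply_apply _).symm⟩
    · rintro ⟨x, rfl⟩
      refine ⟨T (ι x), ⟨U x, ?_⟩, T.symm_apply_apply _⟩
      show T (ι (U.symm (U x))) = T (ι x)
      rw [U.symm_apply_apply]
  rwa [hP, hr] at hfin

end Pool.Agent.Helper14.LE
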