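import Pool.Agent.Helper14.LE.St

set_option autoImplicit false

namespace Pool.Agent.Helper14.LE

open Pool.Agent.Helper14.LK
open scoped ContDiff Topology
open MeasureTheory Set Filter

/-- the derivative of a standard embedding -/
private theorem fderiv_std {n : ℕ} {ι : EE n → WW n} {R : ℝ} (hR : ∀ x, R ≤ ‖x‖ → ι x = (x, 0))
    {x : EE n} (hx : R < ‖x‖) (u : EE n) : fderiv ℝ ι x u = (u, 0) := by
  have hev : ι =ᶠ[𝓝 x] fun x => ((x, 0) : WW n) := by
    filter_upwards [(isOpen_lt continuous_const continuous_norm).mem_nhds hx] with y hy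
    exact hR y (le_of_lt hy)
  have hd1 : HasFDerivAt (fun x : EE n => ((x, 0) : WW n))
      ((ContinuousLinearMap.id ℝ (EE n)).prod 0) x :=
    (hasFDerivAt_id x).prodMk (hasFDerivAt_const (0 : EE n) x)
  rw [hev.fderiv_eq, hd1.fderiv]; rfl

theorem hLFF (hLAG : StLAG) (hEXL : StEXL) (hCRS : StCRS) (hLFT : StLFT) : StLFF := by
  intro k hk ι hι hiso hstd himm hinj
  obtain ⟨R', hR'⟩ := hstd
  set ρ : ℝ := max R' 1 with hρ
  have hρ1 : 1 ≤ ρ := le_max_right _ _
  have hstd : ∀ x, ρ ≤ ‖x‖ → ι x = (x, 0) := fun x hx => hR' x ((le_max_left _ _).trans hx)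
  have hιd : Differentiable ℝ ι := hι.differentiable (by simp)
  have hfsm : ContDiff ℝ ∞ (fun x => cc (ι x)) := cc.contDiff.comp hι
  have hfd : ∀ x u, fderiv ℝ (fun x => cc (ι x)) x u = cc (fderiv ℝ ι x u) := by
    intro x u
    have h1 : HasFDerivAt (fun x => cc (ι x)) (cc.comp (fderiv ℝ ι x)) x :=
      cc.hasFDerivAt.comp x (hιd x).hasFDerivAt
    rw [h1.fderiv]; rfl
  have hzd : ∀ x u, fderiv ℝ (fun x => zz (ι x)) x u = zz (fderiv ℝ ι x u) := by
    intro x u
    have h1 : HasFDerivAt (fun x => zz (ι x)) (zz.comp (fderiv ℝ ι x)) x :=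
      zz.hasFDerivAt.comp x (hιd x).hasFDerivAt
    rw [h1.fderiv]; rfl
  obtain ⟨e, he, hef, hene, hestd⟩ := hCRS k (fun x => cc (ι x)) ρ hfsm
    (fun x c => by
      obtain ⟨u, hu⟩ := hLAG.2.2 k (fderiv ℝ ι x) (hiso x) (himm x) c
      exact ⟨u, by rw [hfd]; exact hu⟩)
    (fun x hx => by rw [hstd x hx]; rfl)
  have hecc : ∀ x, cc (fderiv ℝ ι x (e x)) = 0 := fun x => by rw [← hfd]; exact hef x
  set v : EE (k + 1) → ℂ := fun x => zz (fderiv ℝ ι x (e x)) with hv
  have hvs : ContDiff ℝ ∞ v :=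
    zz.contDiff.comp (((hι.fderiv_right (m := ∞) (by simp))).clm_apply he)
  have hvne : ∀ x, v x ≠ 0 := fun x h => hene x (himm x (e x) (hecc x) h)
  have hv1 : ∀ x, ρ + 1 ≤ ‖x‖ → v x = 1 := by
    intro x hx
    show zz (fderiv ℝ ι x (e x)) = 1
    rw [fderiv_std hstd (by linarith), hestd x (by linarith), zz_apply]
    simp only [lt_mk, Complex.ofReal_one, map_zero, Complex.ofReal_zero, mul_zero, add_zero]
  obtain ⟨l, hl, hl0, hlexp⟩ := hLFT (EE (k + 1)) (by simp; omega) v (ρ + 1) hvs hvne hv1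
  have hjd : ∀ x u, fderiv ℝ (fun x => ((cc (ι x), zz (ι x)) : EE k × ℂ)) x u =
      (cc (fderiv ℝ ι x u), zz (fderiv ℝ ι x u)) := by
    intro x u
    have h1 : HasFDerivAt (fun x => ((cc (ι x), zz (ι x)) : EE k × ℂ))
        ((cc.comp (fderiv ℝ ι x)).prod (zz.comp (fderiv ℝ ι x))) x :=
      (cc.hasFDerivAt.comp x (hιd x).hasFDerivAt).prodMk
        (zz.hasFDerivAt.comp x (hιd x).hasFDerivAt)
    rw [h1.fderiv]; rfl
  have hnorm : ∀ x, ρ ≤ ‖x‖ → ‖x‖ / 2 ≤ ‖((cc (ι x), zz (ι x)) : EE k × ℂ)‖ := by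
    intro x hx
    have h1 : cc (ι x) = hd x := by rw [hstd x hx]; rfl
    have h2 : zz (ι x) = (lt x : ℂ) := by
      rw [hstd x hx, zz_apply]; simp
    have h3 := norm_le_add x
    have h4 := norm_fst_le ((cc (ι x), zz (ι x)) : EE k × ℂ)
    have h5 := norm_snd_le ((cc (ι x), zz (ι x)) : EE k × ℂ)
    simp only at h4 h5
    rw [h1] at h4
    have h6 : ‖zz (ι x)‖ = |lt x| := by
      rw [h2, Complex.norm_real, Real.norm_eq_abs]
    rw [h6] at h5
    rw [h1] at h5 ⊢
    linarith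
  have hproper : Tendsto (fun x => ((cc (ι x), zz (ι x)) : EE k × ℂ)) (cocompact _)
      (cocompact _) := by
    rw [← Metric.cobounded_eq_cocompact (α := EE k × ℂ), ← tendsto_norm_atTop_iff_cobounded]
    have h1 : Tendsto (fun x : EE (k + 1) => ‖x‖ / 2) (cocompact (EE (k + 1))) atTop :=
      (tendsto_norm_cocompact_atTop (E := EE (k + 1))).atTop_div_const (by norm_num)
    refine tendsto_atTop_mono' _ ?_ h1
    filter_upwards [(tendsto_norm_cocompact_atTop (E := EE (k + 1))).eventually_ge_atTop ρ]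
      with x hx using hnorm x hx
  obtain ⟨L, hL, hLc, hLj⟩ := hEXL (EE (k + 1)) (EE k × ℂ) ℂ
    (fun x => ((cc (ι x), zz (ι x)) : EE k × ℂ))
    ((cc.contDiff.comp hι).prodMk (zz.contDiff.comp hι))
    (fun x x' h => hinj x x' (congrArg Prod.fst h) (congrArg Prod.snd h))
    (fun x u h => by
      rw [hjd] at h
      exact himm x u (congrArg Prod.fst h) (congrArg Prod.snd h))
    hproper l hl
    (HasCompactSupport.intro (isCompact_closedBall (0 : EE (k + 1)) (ρ + 1)) (fun x hx => by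
      apply hl0
      rw [mem_closedBall_zero_iff, not_le] at hx
      exact hx.le))
  obtain ⟨B, hB⟩ := hLc.isCompact.isBounded.subset_closedBall (0 : EE k × ℂ)
  obtain ⟨C₁, hC₁⟩ := (isCompact_closedBall (0 : EE (k + 1)) (ρ + 1)).exists_bound_of_continuousOn
    (f := fun x => cc (ι x)) (hfsm.continuous.continuousOn)
  obtain ⟨C₂, hC₂⟩ := (isCompact_closedBall (0 : EE (k + 1)) (ρ + 1)).exists_bound_of_continuousOn
    (f := fun x => zz (ι x)) ((zz.contDiff.comp hι).continuous.continuousOn)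
  set R₁ : ℝ := max (max (ρ + 1) (B + 1)) (max (C₁ + 1) (C₂ + 1)) with hR₁
  refine ⟨e, L, ρ + 1, R₁, by linarith, (le_max_left _ _).trans (le_max_left _ _), he, hL,
    fun x hx => hstd x (by linarith), fun x hx => hestd x (by linarith), ?_, ?_, hecc, ?_⟩
  · intro q hq
    apply image_eq_zero_of_notMem_tsupport
    intro hmem
    have h1 := hB hmem
    rw [mem_closedBall_zero_iff] at h1
    have h2 : B + 1 ≤ R₁ := (le_max_right _ _).trans (le_max_left _ _)
    linarith
  · intro x hx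
    have h1 := hC₁ x (mem_closedBall_zero_iff.mpr hx)
    have h2 := hC₂ x (mem_closedBall_zero_iff.mpr hx)
    have h3 : C₁ + 1 ≤ R₁ := (le_max_left _ _).trans (le_max_right _ _)
    have h4 : C₂ + 1 ≤ R₁ := (le_max_right _ _).trans (le_max_right _ _)
    exact ⟨by linarith, by linarith⟩
  · intro x
    rw [hLj x, hlexp x]

end Pool.Agent.Helper14.LE
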