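import Pool.Agent.Helper14.LE.St

set_option autoImplicit false

namespace Pool.Agent.Helper14.LE

open Pool.Agent.Helper14.LK
open scoped ContDiff Topology NNReal
open MeasureTheory Set Filter

theorem hPRM (hFLB : StFLB) (hPFL : StPFL) (hSMN : StSMN) : StPRM := by
  intro k ι e V Φ R₀ R S hV hΦ hgood hγre hR₀ hR₀R hι he hstd he0 hbd hecc hezz
  have hRpos : 0 < R := hV.pos
  have hιd : Differentiable ℝ ι := hι.differentiable (by simp)
  -- the field is Lipschitz
  obtain ⟨K, hK⟩ : ∃ K : ℝ≥0, LipschitzWith K e := by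
    have h1 : ContDiff ℝ ∞ (fun x => e x - mk (0, 1)) := he.sub contDiff_const
    have h2 : HasCompactSupport (fun x => e x - mk (0, 1)) := by
      refine HasCompactSupport.intro (isCompact_closedBall (0 : EE (k + 1)) R₀) (fun x hx => ?_)
      rw [mem_closedBall_zero_iff, not_le] at hx
      rw [he0 x hx.le, sub_self]
    obtain ⟨K, hK⟩ := h1.lipschitzWith_of_hasCompactSupport h2 (by simp)
    refine ⟨K, LipschitzWith.of_dist_le_mul fun x y => ?_⟩
    have := hK.dist_le_mul x y
    rwa [dist_sub_right] at this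
  obtain ⟨g, hg, hg0, hgd⟩ := hFLB (EE (k + 1)) e he ⟨K, hK⟩
  have hguniq : ∀ c : ℝ → EE (k + 1), (∀ s, HasDerivAt c (e (c s)) s) → ∀ s, c s = g s (c 0) := by
    intro c hc s
    have h1 := ODE_solution_unique_univ (v := fun _ => e) (s := fun _ => Set.univ) (t₀ := 0)
      (K := K) (fun _ => hK.lipschitzOnWith) (f := c) (g := fun s => g s (c 0))
      (fun t => ⟨hc t, mem_univ _⟩) (fun t => ⟨hgd t (c 0), mem_univ _⟩) (hg0 _).symm
    exact congrFun h1 s
  have hgadd : ∀ s t x, g (s + t) x = g s (g t x) := by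
    intro s t x
    have h1 := hguniq (fun r => g (r + t) x) (fun r => (hgd (r + t) x).comp_add_const r t) s
    simpa only [zero_add] using h1
  -- cc and zz along the flow
  have hcc : ∀ s x, cc (ι (g s x)) = cc (ι x) := by
    intro s x
    have h1 : ∀ r, HasDerivAt (fun r => cc (ι (g r x))) 0 r := by
      intro r
      have h2 : HasDerivAt (fun r => ι (g r x)) (fderiv ℝ ι (g r x) (e (g r x))) r :=
        (hιd (g r x)).hasFDerivAt.comp_hasDerivAt r (hgd r x)
      have h3 : HasDerivAt (fun r => cc (ι (g r x))) (cc (fderiv ℝ ι (g r x) (e (g r x)))) r :=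
        cc.hasFDerivAt.comp_hasDerivAt r h2
      rwa [hecc] at h3
    have h2 := is_const_of_deriv_eq_zero (f := fun r => cc (ι (g r x)))
      (fun r => (h1 r).differentiableAt) (fun r => (h1 r).deriv) s 0
    simpa only [hg0] using h2
  obtain ⟨-, hall⟩ := hPFL (ℝ × EE k) V R hV
  obtain ⟨huniq, -, hleft, -, -, -, -, -, -⟩ := hall Φ hΦ
  have hzz : ∀ s x, zz (ι (g s x)) = Φ (1, cc (ι x)) s (zz (ι x)) := by
    intro s x
    have h1 := huniq (1, cc (ι x)) (fun r => zz (ι (g r x))) (fun r => by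
      have h2 : HasDerivAt (fun r => ι (g r x)) (fderiv ℝ ι (g r x) (e (g r x))) r :=
        (hιd (g r x)).hasFDerivAt.comp_hasDerivAt r (hgd r x)
      have h3 : HasDerivAt (fun r => zz (ι (g r x))) (zz (fderiv ℝ ι (g r x) (e (g r x)))) r :=
        zz.hasFDerivAt.comp_hasDerivAt r h2
      rwa [hezz, hcc] at h3) s
    simpa only [hg0] using h1
  -- points outside of the ball
  have hout : ∀ x, R ≤ ‖zz (ι x)‖ → ι x = (x, 0) := by
    intro x hx
    apply hstd
    by_contra h
    rw [not_le] at h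
    linarith [(hbd x h.le).2]
  have hmkR : ∀ c : EE k, ι (mk (c, -R)) = (mk (c, -R), 0) := by
    intro c
    apply hstd
    have h1 := abs_lt_le (mk (c, -R))
    rw [lt_mk, abs_neg, abs_of_pos hRpos] at h1
    linarith
  have hccR : ∀ c : EE k, cc (ι (mk (c, -R))) = c := by
    intro c; rw [hmkR, cc_apply, hd_mk]
  have hzzR : ∀ c : EE k, zz (ι (mk (c, -R))) = -(R : ℂ) := by
    intro c
    rw [hmkR, zz_apply]
    simp only [lt_mk, Complex.ofReal_neg, map_zero, Complex.ofReal_zero, mul_zero, add_zero]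
  -- backward motion from the left face
  have hback : ∀ (c : EE k) (s : ℝ), s ≤ 0 → g s (mk (c, -R)) = mk (c, -R + s) := by
    intro c s hs
    have h1 : zz (ι (g s (mk (c, -R)))) = -(R : ℂ) + s := by
      rw [hzz, hccR, hzzR, hleft _ _ _ (by simp) hs]
    have h2 : R ≤ ‖zz (ι (g s (mk (c, -R))))‖ := by
      refine le_trans ?_ (Complex.abs_re_le_norm _)
      rw [h1, Complex.add_re, Complex.neg_re, Complex.ofReal_re, Complex.ofReal_re]
      rw [abs_of_nonpos (by linarith)]
      linarith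
    have h3 := hout _ h2
    have h4 : hd (g s (mk (c, -R))) = c := by
      have h5 := hcc s (mk (c, -R))
      rw [h3, hccR, cc_apply] at h5
      exact h5
    have h6 : lt (g s (mk (c, -R))) = -R + s := by
      have h7 := congrArg Complex.re h1
      rw [zz_re, h3, Complex.add_re, Complex.neg_re, Complex.ofReal_re, Complex.ofReal_re] at h7
      exact h7
    apply ext_hd_lt
    · rw [h4, hd_mk]
    · rw [h6, lt_mk]
  set Θ : EE (k + 1) → EE (k + 1) := fun x => g (lt x + R) (mk (hd x, -R)) with hΘ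
  have hΘleft : ∀ x, lt x ≤ -R → Θ x = x := by
    intro x hx
    show g (lt x + R) (mk (hd x, -R)) = x
    rw [hback _ _ (by linarith)]
    have h1 : -R + (lt x + R) = lt x := by ring
    rw [h1, mk_hd_lt]
  have hΘcc : ∀ x, cc (ι (Θ x)) = hd x := fun x => by
    show cc (ι (g (lt x + R) (mk (hd x, -R)))) = hd x
    rw [hcc, hccR]
  have hΘzz : ∀ x, zz (ι (Θ x)) = Φ (1, hd x) (lt x + R) (-R) := fun x => by
    show zz (ι (g (lt x + R) (mk (hd x, -R)))) = Φ (1, hd x) (lt x + R) (-R)
    rw [hzz, hccR, hzzR]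
  refine ⟨Θ, R + max R S, ?_, ?_, hΘleft, hΘcc, hΘzz, ?_⟩
  · have h1 : ContDiff ℝ ∞ (fun x : EE (k + 1) => ((lt x + R, mk (hd x, -R)) : ℝ × EE (k + 1))) :=
      (lt.contDiff.add contDiff_const).prodMk (mk.contDiff.comp (hd.contDiff.prodMk contDiff_const))
    exact hg.comp h1
  · intro y
    obtain ⟨T, hT, hTre⟩ := (hSMN (ℝ × EE k) V Φ R hV hΦ (1, cc (ι y)) (hgood _)).1 (zz (ι y))
    set q := g (-T) y with hq
    have hq1 : cc (ι q) = cc (ι y) := hcc _ _
    have hq2 : (zz (ι q)).re ≤ -R := by rw [hq, hzz]; exact hTre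
    have hq3 : R ≤ ‖zz (ι q)‖ := by
      refine le_trans ?_ (Complex.abs_re_le_norm _)
      rw [abs_of_nonpos (by linarith)]
      linarith
    have hq4 := hout q hq3
    have hq5 : hd q = cc (ι y) := by rw [← hq1, hq4]; rfl
    have hq6 : lt q ≤ -R := by
      rw [hq4, zz_re] at hq2; exact hq2
    have hq7 : g (lt q + R) (mk (hd q, -R)) = q := hΘleft q hq6
    refine ⟨mk (hd q, T + lt q), ?_⟩
    show g (lt (mk (hd q, T + lt q)) + R) (mk (hd (mk (hd q, T + lt q)), -R)) = y
    rw [lt_mk, hd_mk]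
    have h1 : T + lt q + R = T + (lt q + R) := by ring
    have h2 : g T (g (-T) y) = y := by
      rw [← hgadd, add_neg_cancel, hg0]
    simp only
    rw [h1, hgadd, hq7, hq, h2]
  · intro x hx
    by_cases h : R₀ ≤ ‖Θ x‖
    · rw [hstd _ h]
    · exfalso
      rw [not_le] at h
      obtain ⟨h1, h2⟩ := hbd _ h.le
      rw [hΘcc] at h1
      have hmR : R ≤ max R S := le_max_left _ _
      have hmS : S ≤ max R S := le_max_right _ _
      have h3 : ¬ lt x ≤ -R := by
        intro h4
        rw [hΘleft x h4] at h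
        linarith
      have h4 : ¬ S ≤ lt x := by
        intro h5
        have h6 := hγre (1, hd x) (lt x) h5
        rw [← hΘzz] at h6
        have h7 := (le_abs_self _).trans (Complex.abs_re_le_norm (zz (ι (Θ x))))
        linarith
      rw [not_le] at h3 h4
      have h5 : |lt x| < max R S := abs_lt.mpr ⟨by linarith, by linarith⟩
      have h6 := norm_le_add x
      linarith

end Pool.Agent.Helper14.LE
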