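import Pool.Agent.Helper14.LE.St

set_option autoImplicit false

namespace Pool.Agent.Helper14.LE

open Pool.Agent.Helper14.LK
open scoped ContDiff Topology
open MeasureTheory Set Filter

/-- a cutoff in time: `τ 0 = 0`, `τ 1 = 1`, `τ t = 0` for `3 ≤ |t|` -/
private noncomputable def tau (t : ℝ) : ℝ := Real.smoothTransition t * Real.smoothTransition (3 - t)

private theorem tau_smooth : ContDiff ℝ ∞ tau :=
  Real.smoothTransition.contDiff.mul
    (Real.smoothTransition.contDiff.comp (contDiff_const.sub contDiff_id))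

private theorem tau_zero : tau 0 = 0 := by
  rw [tau, Real.smoothTransition.zero, zero_mul]

private theorem tau_one : tau 1 = 1 := by
  rw [tau, Real.smoothTransition.one, Real.smoothTransition.one_of_one_le (by norm_num), mul_one]

private theorem tau_far {t : ℝ} (h : 3 ≤ |t|) : tau t = 0 := by
  rw [tau]
  rcases le_abs.mp h with h | h
  · rw [Real.smoothTransition.zero_of_nonpos (x := 3 - t) (by linarith), mul_zero]
  · rw [Real.smoothTransition.zero_of_nonpos (x := t) (by linarith), zero_mul]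

/-- the deformed field -/
private noncomputable def VV {k : ℕ} (L : EE k × ℂ → ℂ) (p : ℝ × EE k) (z : ℂ) : ℂ :=
  Complex.exp ((tau p.1 : ℂ) * L (p.2, z))

private theorem VV_PF {k : ℕ} (L : EE k × ℂ → ℂ) (R₁ : ℝ) (hR₁ : 0 < R₁) (hL : ContDiff ℝ ∞ L)
    (hL0 : ∀ q, R₁ ≤ ‖q‖ → L q = 0) : PF (VV L) (R₁ + 3) where
  pos := by linarith
  smooth := by
    have h1 : ContDiff ℝ ∞ (fun q : (ℝ × EE k) × ℂ => ((tau q.1.1 : ℝ) : ℂ)) :=
      Complex.ofRealCLM.contDiff.comp (tau_smooth.comp (contDiff_fst.comp contDiff_fst))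
    have h2 : ContDiff ℝ ∞ (fun q : (ℝ × EE k) × ℂ => L (q.1.2, q.2)) :=
      hL.comp ((contDiff_snd.comp contDiff_fst).prodMk contDiff_snd)
    exact (h1.mul h2).cexp
  ne := fun p z => Complex.exp_ne_zero _
  far := fun p z h => by
    have : L (p.2, z) = 0 := hL0 _ (le_trans (by linarith) (le_trans h (le_max_right _ _)))
    rw [VV, this, mul_zero, Complex.exp_zero]
  farp := fun p z h => by
    rw [VV]
    rcases le_max_iff.mp (h.trans_eq (Prod.norm_def p)) with h1 | h1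
    · rw [tau_far (t := p.1) (by rw [Real.norm_eq_abs] at h1; linarith), Complex.ofReal_zero,
        zero_mul, Complex.exp_zero]
    · have : L (p.2, z) = 0 := hL0 _ (le_trans (by linarith) (le_trans h1 (le_max_left _ _)))
      rw [this, mul_zero, Complex.exp_zero]

/-- isotropy of a composition -/
private theorem iso_comp {n : ℕ} {ι : EE n → WW n} {Θ : EE n → EE n} (hι : ContDiff ℝ ∞ ι)
    (hΘ : ContDiff ℝ ∞ Θ) (h : Isotropic ι) : Isotropic (fun x => ι (Θ x)) := by
  intro x u v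
  have h1 : fderiv ℝ (fun x => ι (Θ x)) x = (fderiv ℝ ι (Θ x)).comp (fderiv ℝ Θ x) := by
    have := fderiv_comp x (hι.differentiable (by simp) (Θ x)) (hΘ.differentiable (by simp) x)
    exact this
  rw [h1]
  exact h _ _ _

theorem hT0 (hIET : StIET) (hPFL : StPFL) (hSGO : StSGO) (hCUR : StCUR) (hLGL : StLGL)
    (hUNA : StUNA) (hLFF : StLFF) (hPRM : StPRM) : StT0 := by
  intro k hk ι hι hiso hstd himm hinj
  obtain ⟨e, L, R₀, R₁, hR₀, hR₀₁, he, hL, hstd0, he0, hL0, hbd, hecc, hezz⟩ :=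
    hLFF k hk ι hι hiso hstd himm hinj
  set R : ℝ := R₁ + 3 with hRdef
  have hR1 : 0 < R₁ := lt_of_lt_of_le hR₀ hR₀₁
  have hV : PF (VV L) R := VV_PF L R₁ hR1 hL hL0
  obtain ⟨⟨Φ, hΦ⟩, hall⟩ := hPFL (ℝ × EE k) (VV L) R hV
  obtain ⟨huniq, -, hleft, -, hfarp, -, -, -, -⟩ := hall Φ hΦ
  obtain ⟨hgood, a, S, hRS, ha, hafar, hγS, hγre, hγmono, hγinj⟩ :=
    hSGO (ℝ × EE k) (VV L) Φ R hV hΦ
  obtain ⟨Θ, R₂, hΘ, hΘsurj, hΘleft, hΘcc, hΘzz, hΘ2⟩ :=
    hPRM k ι e (VV L) Φ R₀ R S hV hΦ hgood hγre hR₀ (by linarith) hι he hstd0 he0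
      (fun x hx => ⟨by linarith [(hbd x hx).1], by linarith [(hbd x hx).2]⟩) hecc
      (fun x => by rw [hezz x, VV]; simp only [tau_one, Complex.ofReal_one, one_mul])
  have hRpos : 0 < R := hV.pos
  set S₁ : ℝ := max S R₂ with hS₁
  have hSS₁ : S ≤ S₁ := le_max_left _ _
  set γ : ℝ × EE k → ℝ → ℂ := fun p s => Φ p (s + R) (-R) with hγ
  have hγsm : ContDiff ℝ ∞ (Function.uncurry γ) := by
    have : ContDiff ℝ ∞ (fun q : (ℝ × EE k) × ℝ => ((q.1, (q.2 + R, (-R : ℂ))) :
        (ℝ × EE k) × ℝ × ℂ)) :=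
      contDiff_fst.prodMk ((contDiff_snd.add contDiff_const).prodMk contDiff_const)
    exact hΦ.smooth.comp this
  have hγd : ∀ p s, HasDerivAt (γ p) (VV L p (γ p s)) s := by
    intro p s
    have h1 := (hΦ.deriv p (s + R) (-R)).comp_add_const s R
    exact h1
  have hγfarp : ∀ p s, R ≤ ‖p‖ → γ p s = s := by
    intro p s hp
    show Φ p (s + R) (-R) = s
    rw [hfarp p _ _ hp]; push_cast; ring
  have hγleft : ∀ p s, s ≤ -R → γ p s = s := by
    intro p s hs
    show Φ p (s + R) (-R) = s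
    rw [hleft p (-R) (s + R) (by simp) (by linarith)]; push_cast; ring
  have hγS' : ∀ p s, S ≤ s → γ p s = s + a p := hγS
  obtain ⟨ζ, σ, S', hζ, hσ, hσsurj, hσleft, hζγ⟩ := hCUR (ℝ × EE k) γ a R S₁ hRpos
    (hRS.trans hSS₁) hγsm ha hafar hγfarp hγleft (fun p s hs => hγS p s (hSS₁.trans hs))
    (fun p s s' hs => hγmono p s s' (hSS₁.trans hs)) hγinj
    (fun p s => by rw [(hγd p s).deriv]; exact hV.ne _ _)
  obtain ⟨ι', R', hι', hcc', hzz', hiso', himm', hinj', hstd'⟩ := hLGL k ζ S' hζ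
  have hRS₁ : R ≤ S₁ := hRS.trans hSS₁
  -- time one
  have hΘι : ContDiff ℝ ∞ (fun x => ι (Θ x)) := hι.comp hΘ
  have hΘiso : Isotropic (fun x => ι (Θ x)) := iso_comp hι hΘ hiso
  have hzzmk : ∀ c s, zz (ι (Θ (mk (c, s)))) = γ (1, c) s := by
    intro c s
    have := hΘzz (mk (c, s))
    rw [hd_mk, lt_mk] at this
    exact this
  have him : ∀ c : EE k, (a (1, c)).im = 0 := by
    intro c
    have h1 : (zz (ι (Θ (mk (c, max S₁ R₂))))).im = 0 := by
      rw [zz_im, hΘ2 (mk (c, max S₁ R₂)), map_zero]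
      refine (le_max_right S₁ R₂).trans ((le_abs_self _).trans ?_)
      have := abs_lt_le (mk (c, max S₁ R₂))
      rwa [lt_mk] at this
    rw [hzzmk, hγS' _ _ (hSS₁.trans (le_max_left _ _)), Complex.add_im, Complex.ofReal_im,
      zero_add] at h1
    exact h1
  have harea : ∀ c : EE k, ∫ s in Icc (-S₁) S₁, (γ (1, c) s).im * (deriv (γ (1, c)) s).re = 0 := by
    intro c
    have h1 := hUNA.2 k hk (fun x => ι (Θ x)) R₂ hΘι hΘiso hΘcc hΘ2 c S₁ (le_max_right _ _)
    have h2 : (fun r : ℝ => zz (ι (Θ (mk (c, r))))) = γ (1, c) := by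
      funext s; exact hzzmk c s
    have h3 : (fun s : ℝ => (zz (ι (Θ (mk (c, s))))).im *
        (deriv (fun r : ℝ => zz (ι (Θ (mk (c, r))))) s).re) =
        fun s => (γ (1, c) s).im * (deriv (γ (1, c)) s).re := by
      funext s; rw [h2, hzzmk]
    rw [← h3]; exact h1
  have hσsm : ∀ t : ℝ, ContDiff ℝ ∞ (fun x : EE (k + 1) => mk (hd x, σ (t, hd x) (lt x))) := by
    intro t
    apply mk.contDiff.comp
    apply (hd.contDiff).prodMk
    have h1 : ContDiff ℝ ∞ (fun x : EE (k + 1) => (((t, hd x), lt x) : (ℝ × EE k) × ℝ)) :=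
      (contDiff_const.prodMk hd.contDiff).prodMk lt.contDiff
    exact hσ.comp h1
  have h1 : ι' 1 = fun x => ι (Θ (mk (hd x, σ (1, hd x) (lt x)))) := by
    apply hUNA.1 k (ι' 1) (fun x => ι (Θ (mk (hd x, σ (1, hd x) (lt x))))) (max S₁ (max R R'))
      (hι'.comp (contDiff_const.prodMk contDiff_id))
      (hΘι.comp (hσsm 1)) (hiso' 1)
      (iso_comp (ι := fun x => ι (Θ x)) (Θ := fun x => mk (hd x, σ (1, hd x) (lt x))) hΘι (hσsm 1)
        hΘiso) (hcc' 1)
    · intro x
      rw [hΘcc, hd_mk]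
    · intro x
      rw [hzz' 1 x, hzzmk, hζγ (1, hd x) (him _) (harea _)]
    · intro x hx
      have hx1 : lt x ≤ -S₁ := hx.trans (neg_le_neg (le_max_left _ _))
      have hx2 : lt x ≤ -R := hx.trans (neg_le_neg ((le_max_left _ _).trans (le_max_right _ _)))
      have hx3 : lt x ≤ -R' := hx.trans (neg_le_neg ((le_max_right _ _).trans (le_max_right _ _)))
      have hx4 := abs_lt_le x
      have hx5 := neg_abs_le (lt x)
      rw [hstd' 1 x (by linarith), hσleft _ _ (by linarith), mk_hd_lt, hΘleft x hx2,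
        hstd0 x (by linarith)]
  -- time zero
  have hγ0 : ∀ (c : EE k) s, γ (0, c) s = s := by
    intro c s
    have hz : ∀ z, VV L (0, c) z = 1 := by
      intro z
      rw [VV]
      simp only [tau_zero, Complex.ofReal_zero, zero_mul, Complex.exp_zero]
    have h2 := huniq (0, c) (fun s : ℝ => (-R : ℂ) + s) (fun s => by
      rw [hz]
      exact (Complex.ofRealCLM.hasDerivAt (x := s)).const_add (-R : ℂ)) (s + R)
    show Φ (0, c) (s + R) (-R) = s
    simp only [Complex.ofReal_zero, add_zero] at h2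
    rw [← h2]; push_cast; ring
  have ha0 : ∀ c : EE k, a (0, c) = 0 := by
    intro c
    have h2 := hγS' (0, c) S le_rfl
    rw [hγ0] at h2
    have h3 : (S : ℂ) + 0 = S + a (0, c) := by rw [add_zero]; exact h2
    exact (add_left_cancel h3).symm
  have hζ0 : ∀ (c : EE k) s, ζ (0, c) s = σ (0, c) s := by
    intro c s
    rw [hζγ (0, c) (by rw [ha0]; rfl) ?_ s, hγ0]
    have h3 : (fun s : ℝ => (γ (0, c) s).im * (deriv (γ (0, c)) s).re) = fun _ => 0 := by
      funext s; rw [hγ0, Complex.ofReal_im, zero_mul]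
    rw [h3]; simp
  have h0 : ι' 0 = fun x => ((mk (hd x, σ (0, hd x) (lt x)), 0) : WW (k + 1)) := by
    have hsm0 : ContDiff ℝ ∞ (fun x : EE (k + 1) =>
        ((mk (hd x, σ (0, hd x) (lt x)), 0) : WW (k + 1))) := (hσsm 0).prodMk contDiff_const
    apply hUNA.1 k (ι' 0) _ (max S₁ (max R R')) (hι'.comp (contDiff_const.prodMk contDiff_id))
      hsm0 (hiso' 0) ?_ (hcc' 0)
    · intro x
      rw [cc_apply, hd_mk]
    · intro x
      rw [hzz' 0 x, hζ0, zz_apply, lt_mk]
      simp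
    · intro x hx
      have hx1 : lt x ≤ -S₁ := hx.trans (neg_le_neg (le_max_left _ _))
      have hx3 : lt x ≤ -R' := hx.trans (neg_le_neg ((le_max_right _ _).trans (le_max_right _ _)))
      have hx4 := abs_lt_le x
      have hx5 := neg_abs_le (lt x)
      rw [hstd' 0 x (by linarith), hσleft _ _ (by linarith), mk_hd_lt]
    · intro x u v
      have h2 : ∀ w : EE (k + 1), (fderiv ℝ (fun x : EE (k + 1) =>
          ((mk (hd x, σ (0, hd x) (lt x)), 0) : WW (k + 1))) x w).2 = 0 := by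
        intro w
        have h3 : HasFDerivAt (fun x : EE (k + 1) =>
          ((mk (hd x, σ (0, hd x) (lt x)), 0) : WW (k + 1))) _ x :=
          (((hσsm 0).differentiable (by simp) x).hasFDerivAt).prodMk
            (hasFDerivAt_const (0 : EE (k + 1)) x)
        rw [h3.fderiv]
        rfl
      rw [om, h2, h2]
      simp
  have hr1 : Set.range (ι' 1) = Set.range ι := by
    rw [h1]
    ext w
    constructor
    · rintro ⟨x, rfl⟩
      exact ⟨_, rfl⟩
    · rintro ⟨y, rfl⟩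
      obtain ⟨x, rfl⟩ := hΘsurj y
      obtain ⟨s, hs⟩ := hσsurj (1, hd x) (lt x)
      refine ⟨mk (hd x, s), ?_⟩
      simp only [hd_mk, lt_mk, hs, mk_hd_lt]
  have hr0 : Set.range (ι' 0) = Plane (k + 1) := by
    rw [h0]
    ext w
    constructor
    · rintro ⟨x, rfl⟩
      rfl
    · intro hw
      have hw2 : w.2 = 0 := hw
      obtain ⟨s, hs⟩ := hσsurj (0, hd w.1) (lt w.1)
      refine ⟨mk (hd w.1, s), ?_⟩
      simp only [hd_mk, lt_mk, hs, mk_hd_lt]
      exact Prod.ext rfl hw2.symm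
  have hfin := hIET (k + 1) (by omega) ι' R' hι' (fun t _ => hiso' t) (fun t _ => himm' t)
    (fun t _ => hinj' t) (fun t _ x hx => hstd' t x hx)
  rwa [hr0, hr1] at hfin

end Pool.Agent.Helper14.LE
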