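import Pool.Agent.Helper14.LE.Basic
import Pool.Agent.Helper14.LK.St

/-!
Project LE (MP_58b586_gt): statements of the modules, with complete proofs on paper.

THEOREM.  Let `n ≥ 2`, let `V ⊂ ℝ²ⁿ` be an isotropic linear subspace of dimension at least `n - 1`, and let
`ι : ℝⁿ → ℝ²ⁿ` be a smooth isotropic map, standard at infinity, whose projection to `ℝ²ⁿ / V` is an injective
immersion.  Then a compactly supported Hamiltonian isotopy carries `ℝⁿ × 0` onto the image of `ι`.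

IDEA.  `V = {x = 0, y_n = 0}` after a linear symplectic change of coordinates.  The image of `ι` is a family, with
parameter `c = (x₁, …, x_k)`, `k = n - 1`, of long embedded curves in the plane `z = x_n + i y_n`, lifted by
`y_j = ∂S/∂c_j - y_n ∂x_n/∂c_j` (`S` = action).  Such families are contractible (Smale): extend the tangent field of the curves
to a field `exp L(c, z)` without zeros, deform it to `exp (τ L)`, and follow one trajectory.
Statements `StPAR, StFLB, StFLO, StPOI, StBIJ` of project LK are proved (see Pool/Agent/Helper14/LK/St.lean) and may be used as hypotheses.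
-/

set_option autoImplicit false

open MeasureTheory
open scoped ContDiff

namespace Pool.Agent.Helper14.LE

open Pool.Agent.Helper14.LK

/-! ### Part I: general tools -/

/-- LAG (about 150 lines): linear algebra of Lagrangian immersions.
PROOF.  (1) `A` injective and isotropic.  `(u, v) ↦ A u + JJ (A v)` is injective: apply `om (A v) ·`: `om (A v) (A u) + om (A v) (JJ (A v)) = ip (A v) (A v)`
must vanish, so `A v = 0`, `v = 0`, `u = 0`.  Equal finite dimension `2n`, so it is surjective: `b = A u + JJ (A v)`.  `0 = om b (A v) = om (JJ (A v)) (A v) = - ip (A v) (A v)`, so `v = 0`.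
(2) By (1) `b e = A e (u e)` for a unique `u e`.  Let `A₁ = fst ∘ A`, `A₂ = snd ∘ A`, `G = A₁† A₁ + A₂† A₂` (adjoints between euclidean spaces; taking the adjoint is continuous linear, so smooth);
`⟪G u, u⟫ = ip (A u) (A u)`, so `G e` is invertible, and `u e = (G e)⁻¹ (A₁† (b e).1 + A₂† (b e).2)` is smooth (`ContinuousLinearMap.inverse`, `contDiffAt_map_inverse`).
(3) `A` is injective (if `A u = 0` then `cc (A u) = 0`, `zz (A u) = 0`).  The range of `cc ∘ A` is a subspace `Y` of `EE k`.  Let `ξ ⊥ Y` and `b = pl 0 ξ 0`.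
By `om_eq`, `om b (A u) = - ⟪ξ, cc (A u)⟫ = 0` for all `u`, so `b = A u₀` by (1), and `cc b = 0`, `zz b = 0` give `u₀ = 0`, `b = 0`, `ξ = dd b = 0`.  So `Y` is everything. -/
def StLAG : Prop :=
  (∀ (n : ℕ) (A : EE n →L[ℝ] WW n), (∀ u v, om (A u) (A v) = 0) → (∀ u, A u = 0 → u = 0) →
    ∀ b : WW n, (∀ u, om b (A u) = 0) → ∃ u, b = A u) ∧
  (∀ (n : ℕ) (E : Type) [NormedAddCommGroup E] [NormedSpace ℝ E] (A : E → (EE n →L[ℝ] WW n))
    (b : E → WW n), ContDiff ℝ ∞ A → ContDiff ℝ ∞ b → (∀ e u v, om (A e u) (A e v) = 0) →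
    (∀ e u, A e u = 0 → u = 0) → (∀ e u, om (b e) (A e u) = 0) →
    ∃ u : E → EE n, ContDiff ℝ ∞ u ∧ ∀ e, b e = A e (u e)) ∧
  (∀ (k : ℕ) (A : EE (k + 1) →L[ℝ] WW (k + 1)), (∀ u v, om (A u) (A v) = 0) →
    (∀ u, cc (A u) = 0 → zz (A u) = 0 → u = 0) → ∀ c : EE k, ∃ u, cc (A u) = c)

/-- EXL (about 130 lines): extension of a function from an embedded closed submanifold.
PROOF.  `j` is a closed embedding (proper: `isClosedMap_of_...`, or `Topology.IsClosedEmbedding` of an injective continuous proper map).  Let `t w = {r | ∀ x, j x = w → r = K x}`, a convex set (empty is impossible: it is a point or everything).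
Apply `exists_contMDiff_forall_mem_convex_of_local` (Mathlib/Geometry/Manifold/PartitionOfUnity.lean, model `𝓘(ℝ, F)`), `contMDiff_iff_contDiff`.  Local solutions near `w`: if `w` is not in the (closed) range of `j`, take `0`
near `w`.  If `w = j q`: choose a continuous linear left inverse `P : F →L[ℝ] E` of the injective map `fderiv ℝ j q` (finite dimension); `P ∘ j` has derivative `id` at `q`, so by the inverse function theorem it has a smooth
local inverse `s` near `P w` (`ContDiffAt.toOpenPartialHomeomorph`, `ContDiffAt.to_localInverse`), `s (P (j x)) = x` for `x` near `q`; take `w' ↦ K (s (P w'))` near `w`.  If `j x = w'` and `w'` is close to `w` then `x` is close to `q`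
(`j` is an embedding), so `K (s (P w')) = K x`.  This gives a smooth `H₀ : F → G` with `H₀ ∘ j = K`.  Put `H = χ • H₀` with a smooth compactly supported `χ` equal to `1` on the compact set `j (tsupport K)`
(`exists_contDiff_tsupport_subset` or a bump function on a large ball). -/
def StEXL : Prop := ∀ (E F G : Type) [NormedAddCommGroup E] [NormedSpace ℝ E] [FiniteDimensional ℝ E]
  [NormedAddCommGroup F] [NormedSpace ℝ F] [FiniteDimensional ℝ F]
  [NormedAddCommGroup G] [NormedSpace ℝ G] [FiniteDimensional ℝ G] (j : E → F),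
  ContDiff ℝ ∞ j → Function.Injective j → (∀ x u, fderiv ℝ j x u = 0 → u = 0) →
  Filter.Tendsto j (Filter.cocompact E) (Filter.cocompact F) →
  ∀ K : E → G, ContDiff ℝ ∞ K → HasCompactSupport K →
  ∃ H : F → G, ContDiff ℝ ∞ H ∧ HasCompactSupport H ∧ ∀ x, H (j x) = K x

/-- IEA (about 250 lines): the Hamiltonian and the tangential correction of an isotropic isotopy.  Hypotheses: hLAG hEXL hPOI.
PROOF.  (1) `β t x u = om (∂_t ι) (Dι_t(x) u)`, a smooth family of one-forms on `EE n` (`∂_t ι t x = fderiv ℝ (uncurry ι) (t, x) (1, 0)`).  Closed: with `D` = derivative in `x`,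
`Dβ[a] b - Dβ[b] a = om (D∂_t ι a) (Dι b) + om (∂_t ι) (D²ι(a,b)) - om (D∂_t ι b) (Dι a) - om (∂_t ι) (D²ι(b,a)) = ∂_t (om (Dι a) (Dι b)) = 0` (symmetry of second derivatives of the jointly smooth map `ι`, antisymmetry of `om`, isotropy for all `t`).
`β t x = 0` if `R < ‖x‖` (there `ι t x = (x, 0)` for all `t`, so `∂_t ι = 0`), also if `R ≤ ‖x‖`, and if `t ∉ [0,1]`.  StPOI gives a smooth `K` with `fderiv ℝ (K t) x = β t x` and `K t x = 0` for `R ≤ ‖x‖`; for `t ∉ [0,1]` the function `K t` is constant, so `0`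
(`n ≥ 2`, so there are points of large norm).  So `uncurry K` has compact support in `[0,1] × closedBall 0 R`.
(2) StEXL with `E = ℝ × EE n`, `F = ℝ × WW n`, `G = ℝ`, `j (t, x) = (t, ι t x)`: injective, immersion, and proper: the preimage of a compact subset of `{‖w‖ ≤ ρ}` is a closed subset of `{|t| ≤ ρ, ‖x‖ ≤ max R ρ}` (for `‖x‖ ≥ R`, `‖ι t x‖ = ‖x‖`).
It gives `H` with `H (t, ι t x) = K t x`.
(3) `X t w`: the vector with `om (X t w) b = fderiv ℝ (H t) w b`; explicitly, with the Riesz isomorphism `(InnerProductSpace.toDual ℝ (EE n)).symm`, `X = (dual⁻¹ (b ↦ DH (0, b)), - dual⁻¹ (b ↦ DH (b, 0)))`: smooth with compact support.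
(4) StLAG (2) with `E = ℝ × EE n`, `A (t, x) = fderiv ℝ (ι t) x`, `b (t, x) = X t (ι t x) - ∂_t ι t x`: `om (b) (A u) = DH_t (Dι_t u) - β t x u = D(H_t ∘ ι_t) u - D(K_t) u = 0`.  It gives `u`.  Compact support of `u`: if `‖x‖ > R` or `t ∉ [0,1]` then `∂_t ι = 0`,
and `X t (ι t x) = 0` if `(t, ι t x)` is outside of the compact support of `X`, which (properness) is the case outside of a compact set of `(t, x)`; `u = 0` where `b = 0`. -/
def StIEA : Prop := ∀ (n : ℕ), 2 ≤ n → ∀ (ι : ℝ → EE n → WW n) (R : ℝ),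
  ContDiff ℝ ∞ (Function.uncurry ι) → (∀ t, Isotropic (ι t)) → (∀ t, Immersive (ι t)) →
  (∀ t, Function.Injective (ι t)) → (∀ t x, R ≤ ‖x‖ → ι t x = (x, 0)) →
  (∀ t x, t ∉ Set.Icc (0 : ℝ) 1 → deriv (fun s => ι s x) t = 0) →
  ∃ (H : ℝ → WW n → ℝ) (X : ℝ → WW n → WW n) (u : ℝ → EE n → EE n),
    ContDiff ℝ ∞ (Function.uncurry H) ∧ HasCompactSupport (Function.uncurry H) ∧
    ContDiff ℝ ∞ (Function.uncurry X) ∧ HasCompactSupport (Function.uncurry X) ∧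
    ContDiff ℝ ∞ (Function.uncurry u) ∧ HasCompactSupport (Function.uncurry u) ∧
    (∀ t w b, om (X t w) b = fderiv ℝ (H t) w b) ∧
    ∀ t x, X t (ι t x) = deriv (fun s => ι s x) t + fderiv ℝ (ι t) x (u t x)

/-- IET (about 200 lines): extension of isotropic isotopies to Hamiltonian isotopies.  Hypotheses: hIEA hFLO.
PROOF.  Let `ι' t = ι (smoothTransition t)` (`Real.smoothTransition` is smooth, `0` for `t ≤ 0`, `1` for `t ≥ 1`, values in `[0,1]`).  `ι'` satisfies the hypotheses of StIEA (the derivative in `t` is `smoothTransition' t • ...`, zero for `t < 0` and `t > 1`).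
Take `H, X, u`.  `X` and `u` are smooth with compact support, so Lipschitz (`ContDiff.lipschitzWith_of_hasCompactSupport`); StFLO gives the flow `φ` of `X` and the flow `g` of `u` with smooth inverse `gi`.
`d/dt ι' t (g t x) = ∂_t ι' + Dι'_t (u t (g t x)) = X t (ι' t (g t x))`, so by uniqueness (`ODE_solution_unique_univ`) `φ t (ι' 0 x) = ι' t (g t x)`.  `g 1` is surjective, so `φ 1 '' range (ι 0) = range (ι 1)`.
`IsHamIsotopy H φ`: `H t w = 0` for `w` outside of the projection of the compact support of `H`. -/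
def StIET : Prop := ∀ (n : ℕ), 2 ≤ n → ∀ (ι : ℝ → EE n → WW n) (R : ℝ),
  ContDiff ℝ ∞ (Function.uncurry ι) → (∀ t ∈ Set.Icc (0 : ℝ) 1, Isotropic (ι t)) →
  (∀ t ∈ Set.Icc (0 : ℝ) 1, Immersive (ι t)) →
  (∀ t ∈ Set.Icc (0 : ℝ) 1, Function.Injective (ι t)) →
  (∀ t ∈ Set.Icc (0 : ℝ) 1, ∀ x, R ≤ ‖x‖ → ι t x = (x, 0)) →
  HamIsotopic (Set.range (ι 0)) (Set.range (ι 1))

/-! ### Part II: planar vector fields with parameters -/

/-- PFL (about 300 lines): the flow and its elementary properties.  Hypothesis: hFLB.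
PROOF.  (1) Apply StFLB to `W : E × ℂ → E × ℂ`, `W (p, z) = (0, V p z)`; `W - (0, 1)` is smooth with compact support (zero if `R ≤ ‖z‖` or `R ≤ ‖p‖`), so `W` is Lipschitz.  The first component of the flow is constant.  The law `Φ p (s + r) z = Φ p s (Φ p r z)` is uniqueness of solutions.
(2) uniqueness: `ODE_solution_unique_univ` (`V p` is Lipschitz).  (3) if `R ≤ ‖Φ p r z‖` for `r` between `0` and `s`, the derivative of `Φ p r z - r` is `0` there.
(4) For `Re z ≤ - R` and `s ≤ 0` the curve `z + s` has `‖z + s‖ ≥ |Re| ≥ R`, so it solves the equation on `(-∞, 0]`; use uniqueness on that half line (or: compare with (3): the supremum of the times for which the formula holds).  (5) same for `Re z ≥ R`, `s ≥ 0`.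
(6) `‖p‖ ≥ R`: `V p = 1`.  (7) Let `s₁ < s < s₃` with `‖Φ p s₁ z‖ ≤ R`, `‖Φ p s₃ z‖ ≤ R` and suppose `‖Φ p s z‖ > R`.  Let `α` be the last time before `s` and `β` the first time after `s` with norm `≤ R` (closed sets).  On `[α, β]` the norm is `≥ R`, so by (3)
`Φ p r z = Φ p α z + (r - α)` there, so `Φ p s z` is on the segment between two points of the closed ball, contradiction.
(8) `V` is bounded: continuous, and `1` outside of a compact set.  (9) differentiate `Φ p s (Φ p r z) = Φ p (s + r) z` in `r` at `r = 0`.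
(10) `D(s) = ar (DΦ_s(z) 1) (DΦ_s(z) I)` is the determinant of `DΦ_s(z)`; it is continuous in `s`, `D(0) = 1`, and never zero since `Φ_{-s} ∘ Φ_s = id` makes `DΦ_s(z)` injective (if `D = 0` then `DΦ_s 1`, `DΦ_s I` are linearly dependent over `ℝ`).  So `D > 0` (intermediate value theorem).
For all `v, w`: `ar (DΦ v) (DΦ w) = D * ar v w` (real bilinear and alternating). -/
def StPFL : Prop := ∀ (E : Type) [NormedAddCommGroup E] [NormedSpace ℝ E] [FiniteDimensional ℝ E]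
  (V : E → ℂ → ℂ) (R : ℝ), PF V R → (∃ Φ : E → ℝ → ℂ → ℂ, PFl V Φ) ∧
  ∀ Φ : E → ℝ → ℂ → ℂ, PFl V Φ →
    (∀ p (γ : ℝ → ℂ), (∀ s, HasDerivAt γ (V p (γ s)) s) → ∀ s, γ s = Φ p s (γ 0)) ∧
    (∀ p z s, (∀ r ∈ Set.uIcc 0 s, R ≤ ‖Φ p r z‖) → Φ p s z = z + s) ∧
    (∀ p z s, z.re ≤ -R → s ≤ 0 → Φ p s z = z + s) ∧
    (∀ p z s, R ≤ z.re → 0 ≤ s → Φ p s z = z + s) ∧
    (∀ p z s, R ≤ ‖p‖ → Φ p s z = z + s) ∧
    (∀ p z, Set.OrdConnected {s : ℝ | ‖Φ p s z‖ ≤ R}) ∧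
    (∃ M : ℝ, 0 < M ∧ ∀ p z, ‖V p z‖ ≤ M) ∧
    (∀ p s z, fderiv ℝ (Φ p s) z (V p z) = V p (Φ p s z)) ∧
    (∀ p s z, ∃ D : ℝ, 0 < D ∧ ∀ v w, ar (fderiv ℝ (Φ p s) z v) (fderiv ℝ (Φ p s) z w) = D * ar v w)

/-- SMN (about 150 lines): if all backward trajectories reach the left half plane, a trajectory meets a transverse segment at most once.  Hypothesis: hPFL.
PROOF.  `p` is fixed, write `Φ s z`.  (1) All `z`: if `‖z‖ ≤ R` this is `Good`.  Otherwise suppose `Re Φ(-T) z > -R` for all `T ≥ 0`.  If some `‖Φ(-T₁) z‖ ≤ R`, apply `Good` to `Φ(-T₁) z` and the group law.  If not, `Φ(-T) z = z - T` for all `T ≥ 0` (straight), whose real part tends to `-∞`.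
(2) For `z : ℂ` choose `T z ≥ 0` with `Re Φ(-T z) z ≤ -R` and put `h z = Im Φ(-T z) z`.  If `T ≥ 0` is any time with `Re Φ(-T) z ≤ -R` then `Im Φ(-T) z = h z` (to the left of `-R` backward motion is `z ↦ z - τ`).  So `h (Φ s z) = h z` (take `T` large).
(3) Let `z = z₀ + r w`, `r ∈ [a, b]`, and `T = T z + 1`: `Re Φ(-T) z ≤ -R - 1 < -R`, so for `z'` near `z` also `Re Φ(-T) z' < -R` and `h z' = Im Φ(-T) z'`.  So `r ↦ h (z₀ + r w)` is differentiable (near `r`) with derivative `Im (DΦ(-T)(z) w)`.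
Now `DΦ(-T)(z) (V z) = V (Φ(-T) z) = 1`, so `Im (DΦ(-T)(z) w) = ar 1 (DΦ(-T) w) = ar (DΦ(-T) V) (DΦ(-T) w) = D * ar (V z) w > 0`.  So `h` is strictly increasing along the segment (`strictMonoOn_of_deriv_pos`).
(4) `Φ s z₁ = z₂` gives `h z₁ = h z₂`, so `r₁ = r₂`, `Φ s z₁ = z₁`.  If `s ≠ 0`, then `Φ (m s) z₁ = z₁` for all integers `m`; for `- m s ≥ T z₁` large, `Re Φ (m s) z₁ = Re Φ(-T z₁) z₁ - (- m s - T z₁) → -∞`, contradiction. -/
def StSMN : Prop := ∀ (E : Type) [NormedAddCommGroup E] [NormedSpace ℝ E] [FiniteDimensional ℝ E]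
  (V : E → ℂ → ℂ) (Φ : E → ℝ → ℂ → ℂ) (R : ℝ), PF V R → PFl V Φ → ∀ p, Good Φ R p →
  (∀ z, ∃ T : ℝ, 0 ≤ T ∧ (Φ p (-T) z).re ≤ -R) ∧
  ∀ (z₀ w : ℂ) (a b : ℝ), (∀ r ∈ Set.Icc a b, 0 < ar (V p (z₀ + (r : ℂ) * w)) w) →
    ∀ r₁ ∈ Set.Icc a b, ∀ r₂ ∈ Set.Icc a b, ∀ s : ℝ,
      Φ p s (z₀ + (r₁ : ℂ) * w) = z₀ + (r₂ : ℂ) * w → s = 0

/-- SUN (about 250 lines): the exit times are locally uniform in the parameter.  Hypotheses: hPFL hSMN.
PROOF.  (A) Local statement: for every `z₀` there are `δ, r, τ > 0` such that for `‖p - p₀‖ < δ` with `Good Φ R p` and all `z` and real times `s₁ ≤ s₂` with `‖Φ p s₁ z - z₀‖ < r`, `‖Φ p s₂ z - z₀‖ < r` one has `s₂ - s₁ ≤ 2 τ`.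
Proof of (A): `v = V p₀ z₀ ≠ 0`, `w = I * v`, so `ar v w = ‖v‖²`.  Choose `ρ, δ > 0` with `‖V p z - v‖ ≤ ‖v‖ / 4` for `‖z - z₀‖ ≤ ρ`, `‖p - p₀‖ < δ` (continuity), `r = ρ / 8`, `τ = 2 r / ‖v‖`.  Let `‖Φ p s z - z₀‖ < r`.  On `[s - τ, s + τ]` the trajectory stays within
`r + (5/4) ‖v‖ τ = r + (5/2) r < ρ` of `z₀` (as long as it is within `ρ` its speed is `≤ (5/4) ‖v‖`; continuity argument, or use `‖Φ p s' z - Φ p s z‖ ≤ M |s' - s|` with the global bound `M` of `‖V‖`, `M ≥ ‖v‖`, and take `r ≤ ρ ‖v‖ / (8 M)` instead: `r + M τ = r + 2 r M / ‖v‖ ≤ ρ/8 + ρ/4 < ρ`).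
`κ(s') = Re (conj v * (Φ p s' z - z₀)) / ‖v‖²` has derivative `≥ 3/4` on `[s - τ, s + τ]` and `|κ(s)| ≤ r / ‖v‖ = τ / 2`, so `κ(s - τ) ≤ τ/2 - 3τ/4 < 0 < κ(s + τ)` and there is `s' ∈ (s - τ, s + τ)` with `κ(s') = 0`, that is `Φ p s' z = z₀ + y w` with `y` real, `|y| ‖v‖ < ρ`.
If `s₂ - s₁ > 2 τ`, the two times `s₁' < s₁ + τ < s₂ - τ < s₂'` are different, both points are on the segment `z₀ + [-ρ/‖v‖, ρ/‖v‖] w`, along which `ar (V p ·) w ≥ ‖v‖² - (1/4) ‖v‖² > 0`; by StSMN `s₂' - s₁' = 0`, contradiction.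
(B) Cover the compact ball `closedBall 0 R` by finitely many balls `B(z_i, r_i)`, `i < N`; `δ = min δ_i`, `τ = max τ_i`, `T₁ = 2 τ (N + 1)`.  Let `p` be as in the statement and `‖z‖ ≤ R`.  Claim: `‖Φ p (-s) z‖ > R` for `s > T₁`.  Otherwise, by `OrdConnected`, the trajectory is in the ball for all times in `[-s, 0]`; the
`N + 1` times `0, -(2τ + η), -2(2τ + η), …, -N (2τ + η)` (small `η > 0`, `N (2τ + η) ≤ T₁`) are in `[-s, 0]`, two of them are in the same `B(z_i, r_i)` (pigeonhole) and differ by more than `2 τ`, contradiction to (A).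
So for `s > T₁` the motion is straight: `Re Φ(-s) z = Re Φ(-T₁') z - (s - T₁')` (`T₁' > T₁` fixed), and `Re Φ(-T₁') z ≤ R + M T₁'`.  So `T₀ = T₁' + 2 R + M T₁' + 1` works. -/
def StSUN : Prop := ∀ (E : Type) [NormedAddCommGroup E] [NormedSpace ℝ E] [FiniteDimensional ℝ E]
  (V : E → ℂ → ℂ) (Φ : E → ℝ → ℂ → ℂ) (R : ℝ), PF V R → PFl V Φ → ∀ p₀ : E,
  ∃ δ T₀ : ℝ, 0 < δ ∧ 0 ≤ T₀ ∧ ∀ p, ‖p - p₀‖ < δ → Good Φ R p →
    ∀ z, ‖z‖ ≤ R → (Φ p (-T₀) z).re ≤ -R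

/-- SGO (about 200 lines): all parameters are good, with a uniform time; and the trajectory of `-R`.  Hypotheses: hPFL hSMN hSUN.
PROOF.  `G = {p | Good Φ R p}`.  Nonempty: `‖p‖ ≥ R` (`E` is nontrivial) gives `Φ p s z = z + s`, `T = 2 R`.  Closed: `p₀ ∈ closure G`, take `δ, T₀` from StSUN; for `‖z‖ ≤ R` the inequality `Re Φ p (-T₀) z ≤ -R` holds for `p ∈ G` near `p₀`, so also for `p₀` by continuity.
Open: let `p₀ ∈ G`; StSUN at `p₀` itself gives `T₀` with `Re Φ p₀ (-T₀) z ≤ -R` for all `‖z‖ ≤ R`, so `Re Φ p₀ (-T₀ - 1) z ≤ -R - 1`; by compactness of the ball and continuity (`IsCompact` and tube lemma, or sequences) `Re Φ p (-T₀ - 1) z < -R` for `p` near `p₀` and all `‖z‖ ≤ R`.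
`E` is connected, so `G` is everything.  Uniform time: `closedBall (0 : E) R` is covered by finitely many of the balls of StSUN, `‖p‖ ≥ R` has `T = 2R`; take the maximum `T` (larger times are fine: to the left of `-R` backward motion is straight).
Forward: let `‖z‖ ≤ R`, `s > T`.  Then `‖Φ p s z‖ > R`: otherwise `z' = Φ p s z` is in the ball, `Re Φ(-T) z' ≤ -R`, so `Re z = Re Φ(-s) z' ≤ -R - (s - T) < -R`, contradiction.  So for `s > T` the motion is straight and `Re Φ p s z ≥ -R - M T' + (s - T')` for a fixed `T' > T`; enlarge `T`.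
Curve: `γ p s = Φ p (s + R) (-R)`, `S = T + 2 R + 2`.  For `s ≥ S - 1`: `Re γ p s ≥ R` and the motion is straight from then on, so `γ p s = s + a p` with `a p = γ p S - S`, smooth; `a p = 0` for `‖p‖ ≥ R`.
Injective: `γ p s = γ p s'`, `s' < s`, is a periodic orbit: contradiction as in StSMN (or apply StSMN with the segment `z₀ = γ p s`, `w = I * V p z₀`, `a = b = 0`).  Monotone: let `s ≥ S`, `s' < s`.  If `s' ≥ S - 1` both are on the straight part.  If `s' < S - 1`: if `Re γ p s' ≤ R` then `Re γ p s' ≤ R < R + 1 ≤ Re γ p s`;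
if `Re γ p s' > R` the motion from `s'` to `s` is straight. -/
def StSGO : Prop := ∀ (E : Type) [NormedAddCommGroup E] [NormedSpace ℝ E] [FiniteDimensional ℝ E]
  [Nontrivial E] (V : E → ℂ → ℂ) (Φ : E → ℝ → ℂ → ℂ) (R : ℝ), PF V R → PFl V Φ →
  (∀ p, Good Φ R p) ∧
  ∃ (a : E → ℂ) (S : ℝ), R ≤ S ∧ ContDiff ℝ ∞ a ∧ (∀ p, R ≤ ‖p‖ → a p = 0) ∧
    (∀ p s, S ≤ s → Φ p (s + R) (-R) = s + a p) ∧ (∀ p s, S ≤ s → R ≤ (Φ p (s + R) (-R)).re) ∧
    (∀ p s s', S ≤ s → s' < s → (Φ p (s' + R) (-R)).re < (Φ p (s + R) (-R)).re) ∧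
    ∀ p, Function.Injective (fun s : ℝ => Φ p (s + R) (-R))

/-- CUR (about 300 lines): straightening the right end and correcting the area.  Hypothesis: hPAR.
PROOF.  `χ = Real.smoothTransition` (smooth, `0` for `t ≤ 0`, `1` for `t ≥ 1`, values in `[0,1]`), `C` a bound of `|χ'|`, `M > 0` with `C ‖a p‖ / M ≤ 1/2` for all `p` (`a` is continuous with compact support), `S₂ = S + M`, `β : ℝ → ℝ` smooth, supported in `[0,1]`, with integral `1` (normed `ContDiffBump` at `1/2`).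
`ζ' p s = γ p s - χ ((s - S)/M) a p`, `A p = ∫_{[-S, S₂]} Im ζ' * Re ∂_s ζ'` (smooth by StPAR; zero for `‖p‖ ≥ R`), `ζ p s = ζ' p s - I * A p * β (s - S₂)`, `S' = S₂ + 2` (or larger), `σ p s = s - χ ((s - S)/M) * Re (a p)`.
For `s ≥ S`: `ζ' p s = s + (1 - χ) a p`, for `s ≥ S₂`: `ζ' p s = s`.  `Re ∂_s ζ ≥ 1 - |χ'| ‖a p‖/M ≥ 1/2` for `s ≥ S` (one-sided at `S`; `ζ` is smooth).  Injective: `s' < s`: if `s < S` both are points of `γ p`; if `s' < S ≤ s`, `Re ζ p s' = Re γ p s' < Re γ p S = Re ζ p S ≤ Re ζ p s`; if `S ≤ s'`, monotone.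
`deriv ≠ 0`: for `s < S` it is `deriv (γ p) s` (open set), for `s ≥ S` its real part is positive.  Area: for `s ∈ [S₂, S₂ + 1]`, `Im ζ = - A β(s - S₂)` and `Re ∂_s ζ = 1`, beyond `S₂ + 1` and before `-S` the imaginary part is `0` (`γ p s = s` for `s ≤ -R`); total `A - A = 0`.
`σ p` is continuous with bounded distance to the identity, so surjective; `σ p s = s` for `s ≤ S`.  If `Im (a p) = 0`: for `s ≥ S`, `ζ' p s = s + (1 - χ) a p` is real, so `A p = ∫_{[-S, S]} Im γ * Re ∂_s γ`; if this is `0`, `ζ p = ζ' p`, equal to `γ p s = γ p (σ p s)` for `s ≤ S`, and for `s ≥ S`: `σ p s ≥ S`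
(`σ p` has derivative `≥ 1/2`, `σ p S = S`), so `γ p (σ p s) = σ p s + a p = ζ' p s`. -/
def StCUR : Prop := ∀ (E : Type) [NormedAddCommGroup E] [NormedSpace ℝ E] [FiniteDimensional ℝ E]
  (γ : E → ℝ → ℂ) (a : E → ℂ) (R S : ℝ), 0 < R → R ≤ S →
  ContDiff ℝ ∞ (Function.uncurry γ) → ContDiff ℝ ∞ a → (∀ p, R ≤ ‖p‖ → a p = 0) →
  (∀ p s, R ≤ ‖p‖ → γ p s = s) → (∀ p s, s ≤ -R → γ p s = s) →
  (∀ p s, S ≤ s → γ p s = s + a p) →
  (∀ p s s', S ≤ s → s' < s → (γ p s').re < (γ p s).re) → (∀ p, Function.Injective (γ p)) →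
  (∀ p s, deriv (γ p) s ≠ 0) →
  ∃ (ζ : E → ℝ → ℂ) (σ : E → ℝ → ℝ) (S' : ℝ), LC ζ S' ∧ ContDiff ℝ ∞ (Function.uncurry σ) ∧
    (∀ p, Function.Surjective (σ p)) ∧ (∀ p s, s ≤ S → σ p s = s) ∧
    ∀ p, (a p).im = 0 → ∫ s in Set.Icc (-S) S, (γ p s).im * (deriv (γ p) s).re = 0 →
      ∀ s, ζ p s = γ p (σ p s)

/-! ### Part III: lifting curves to Lagrangians -/

/-- LGL (about 300 lines): the Lagrangian family over a family of curves.  Hypothesis: hPAR.
PROOF.  `P t c s = ∫_{-S}^{s} Im ζ(t,c)(r) * Re ∂_r ζ(t,c)(r) dr = ∫_{r ∈ [0,1]} (s + S) g(t, c, -S + r (s + S))`, `g` = the integrand: smooth by StPAR; `∂_s P = g`.  `P = 0` for `s ≤ -S` and for `s ≥ S` (area), and for `‖c‖ ≥ S` (all `s, t`) and for `|t| ≥ S`.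
`h t c s : EE k` has coordinates `h_i = ∂_{c_i} P - Im ζ * ∂_{c_i} Re ζ`; `ι t x = pl (hd x) (h t (hd x) (lt x)) (ζ (t, hd x) (lt x))`.  `cc`, `zz` are clear.
Isotropic: for fixed `t` put `Q x = P t (hd x) (lt x)`.  For all `u`: `⟪(ι t x).2, (Dι_t(x) u).1⟫ = ⟪h, hd u⟫ + Im ζ * D(Re ζ)(hd u, lt u) = DQ(x) u` (definition of `h`, and `∂_s P = Im ζ * Re ∂_s ζ`).  Differentiate in direction `v` and antisymmetrize: second derivatives are symmetric, so
`⟪(Dι v).2, (Dι u).1⟫ - ⟪(Dι u).2, (Dι v).1⟫ = 0`, i.e. `om (Dι u) (Dι v) = 0`.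
Immersive: `Dι_t(x) u = 0` gives `hd u = 0` (apply `cc`), then `u = mk (0, lt u)` and `0 = zz (Dι_t(x) u) = lt u * ∂_s ζ`, so `lt u = 0`.  Injective: `cc` gives `hd x = hd x'`, then `ζ (t, hd x)` is injective.
Standard: take the radius `2 S + 1`: then `‖hd x‖ > S` or `|lt x| > S`.  In both cases `ζ = s` near `x` (in `c` and `s`), so `Im ζ = 0`, and `P = 0` near `x`, so `h = 0` and `ι t x = pl (hd x) 0 (lt x) = (x, 0)` (`pl_std`). -/
def StLGL : Prop := ∀ (k : ℕ) (ζ : ℝ × EE k → ℝ → ℂ) (S : ℝ), LC ζ S →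
  ∃ (ι : ℝ → EE (k + 1) → WW (k + 1)) (R : ℝ), ContDiff ℝ ∞ (Function.uncurry ι) ∧
    (∀ t x, cc (ι t x) = hd x) ∧ (∀ t x, zz (ι t x) = ζ (t, hd x) (lt x)) ∧
    (∀ t, Isotropic (ι t)) ∧ (∀ t, Immersive (ι t)) ∧ (∀ t, Function.Injective (ι t)) ∧
    ∀ t x, R ≤ ‖x‖ → ι t x = (x, 0)

/-- UNA (about 200 lines): uniqueness of the lift, and vanishing of the area.  Hypothesis: hPOI.
PROOF.  (1) `δ x = dd (ι x) - dd (ι' x)`.  For `u = mk (0, 1)`, `v = mk (c', 0)`: `cc (Dι u) = hd u = 0`, `cc (Dι v) = c'`, so by `om_eq` `0 = om (Dι u) (Dι v) = - ⟪dd (Dι u), c'⟫ + ar (zz (Dι u)) (zz (Dι v))`, and the same for `ι'` with the same `zz`.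
So `⟪Dδ(x) u, c'⟫ = 0` for all `c'`, `Dδ(x) (mk (0, 1)) = 0`, `δ` is constant along `s ↦ mk (c, s)`, and `0` for `s ≤ -R`.  Then `ext_cdz`.
(2) `α x u = ⟪(ι x).2, (Dι(x) u).1⟫` is a closed one-form by isotropy and symmetric second derivatives, and vanishes for `‖x‖ ≥ R`.  StPOI (dimension `k + 1 ≥ 2`) gives `f` with `Df = α`, `f x = 0` for `‖x‖ ≥ R`.
`d/ds f (mk (c, s)) = α (mk (c, s)) (mk (0, 1)) = ⟪dd ι, cc (Dι (mk (0,1)))⟫ + Im (zz ι) * Re (zz (Dι (mk (0,1)))) = Im (zz ι) * Re (d/ds zz ι)` (`inner_eq`; `cc (Dι u) = hd u = 0`).  The integral over `[-S, S]` is `f (mk (c, S)) - f (mk (c, -S)) = 0`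
(if `S ≥ 0`; norm of `mk (c, ±S)` is at least `S ≥ R`; if `S < 0` the interval is empty). -/
def StUNA : Prop :=
  (∀ (k : ℕ) (ι ι' : EE (k + 1) → WW (k + 1)) (R : ℝ), ContDiff ℝ ∞ ι → ContDiff ℝ ∞ ι' →
    Isotropic ι → Isotropic ι' → (∀ x, cc (ι x) = hd x) → (∀ x, cc (ι' x) = hd x) →
    (∀ x, zz (ι x) = zz (ι' x)) → (∀ x, lt x ≤ -R → ι x = ι' x) → ι = ι') ∧
  (∀ (k : ℕ), 1 ≤ k → ∀ (ι : EE (k + 1) → WW (k + 1)) (R : ℝ), ContDiff ℝ ∞ ι → Isotropic ι →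
    (∀ x, cc (ι x) = hd x) → (∀ x, R ≤ ‖x‖ → (ι x).2 = 0) → ∀ (c : EE k) (S : ℝ), R ≤ S →
    ∫ s in Set.Icc (-S) S, (zz (ι (mk (c, s)))).im * (deriv (fun r => zz (ι (mk (c, r)))) s).re = 0)

/-! ### Part IV: from a Lagrangian to curves -/

/-- CRS (about 150 lines): an oriented kernel field of a submersion `ℝ^{k+1} → ℝ^k`.
PROOF.  For a continuous linear `A : EE (k+1) →L[ℝ] EE k` let `m A j` be the square matrix with rows `0, …, k-1` the rows of `A` (entries `A (e_i) r`) and last row `e_jᵀ`, and `(cr A) j = det (m A j)` (smooth in `A`: polynomial in the entries).  For any vector `r`, `∑_j r_j (cr A) j` is the determinant of the matrix with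
rows of `A` and last row `r` (linearity in the last row, `Matrix.det_updateRow_add`, `_smul`, or expansion along the last row, `Matrix.det_succ_row`).  With `r` a row of `A`: two equal rows, so `A (cr A) = 0`.  If `A` is surjective, its kernel contains some `u ≠ 0` (dimension) and is spanned by it; the matrix with last row `r = u` is injective
(`A w = 0` and `⟪u, w⟫ = 0` give `w = λ u`, `λ = 0`), so `∑_j u_j (cr A) j ≠ 0` and `cr A ≠ 0`.  If `A = hd` the matrix `m A j` is the identity with the last row replaced by `e_jᵀ`, with determinant `δ_{j,last}`, so `cr hd = mk (0, 1)`.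
`e x = cr (fderiv ℝ f x)`; for `R < ‖x‖`, `f = hd` near `x`, so `fderiv ℝ f x = hd`. -/
def StCRS : Prop := ∀ (k : ℕ) (f : EE (k + 1) → EE k) (R : ℝ), ContDiff ℝ ∞ f →
  (∀ x, Function.Surjective (fderiv ℝ f x)) → (∀ x, R ≤ ‖x‖ → f x = hd x) →
  ∃ e : EE (k + 1) → EE (k + 1), ContDiff ℝ ∞ e ∧ (∀ x, fderiv ℝ f x (e x) = 0) ∧
    (∀ x, e x ≠ 0) ∧ ∀ x, R < ‖x‖ → e x = mk (0, 1)

/-- LFT (about 120 lines): logarithm of a function without zeros.  Hypothesis: hPOI.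
PROOF.  `q x u = Dv(x) u / v x` is complex valued and closed: `Dq(x)[a] b = D²v(a,b)/v - (Dv a)(Dv b)/v²` is symmetric; `q = 0` for `R < ‖x‖` and by continuity (or because `Dv = 0` by continuity) for `R ≤ ‖x‖` (if you like, apply StPOI with radius `R + 1` and correct at the end: the logarithm is constant and `exp` of it is `1` on `{R ≤ ‖x‖}`;
better: `q x = 0` for `‖x‖ = R`, `x ≠ 0`, as the limit of `q ((1 + δ) • x)`; if `R ≤ 0` then `v = 1`, `ℓ = 0`).  StPOI for the real and the imaginary part gives `ℓ : W → ℂ` with `Dℓ = q`, `ℓ = 0` for `R ≤ ‖x‖`.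
`D(v * exp (-ℓ)) = 0`, so `v * exp (-ℓ)` is constant (`is_const_of_fderiv_eq_zero`), equal to `1` at a point of norm `≥ R` (exists: `W` is nontrivial). -/
def StLFT : Prop := ∀ (W : Type) [NormedAddCommGroup W] [NormedSpace ℝ W] [FiniteDimensional ℝ W],
  2 ≤ Module.finrank ℝ W → ∀ (v : W → ℂ) (R : ℝ), ContDiff ℝ ∞ v → (∀ x, v x ≠ 0) →
  (∀ x, R ≤ ‖x‖ → v x = 1) →
  ∃ l : W → ℂ, ContDiff ℝ ∞ l ∧ (∀ x, R ≤ ‖x‖ → l x = 0) ∧ ∀ x, Complex.exp (l x) = v x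

/-- LFF (about 200 lines): the tangent field of the curves, extended to the plane.  Hypotheses: hLAG hEXL hCRS hLFT.
PROOF.  Let `ρ > 0` with `ι x = (x, 0)` for `‖x‖ ≥ ρ` (StdInfty).  `f = cc ∘ ι`: `fderiv ℝ f x u = cc (Dι(x) u)`, surjective by StLAG (3), `f x = hd x` for `‖x‖ ≥ ρ`.  StCRS gives `e`.  `v x = zz (Dι(x) (e x))` is smooth, not zero (otherwise `e x = 0`), and `1` for `‖x‖ > ρ`
(`Dι(x) u = (u, 0)`, `zz (mk (0,1), 0) = 1`).  StLFT (with radius `ρ + 1`) gives `l` with `exp (l x) = v x`, `l x = 0` for `‖x‖ ≥ ρ + 1`: compact support.  StEXL with `E = EE (k+1)`, `F = EE k × ℂ`, `G = ℂ`, `j x = (cc (ι x), zz (ι x))`: injective by hypothesis, immersion by hypothesis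
(`Dj(x) u = (cc (Dι u), zz (Dι u))`), proper (for `‖x‖ ≥ ρ`, `j x = (hd x, lt x)` with norm at least `‖x‖ / 2`, `norm_le_add`).  `K = l` gives `L` with compact support and `L (j x) = l x`.  `R₀ = ρ + 1`, `R₁` = a number larger than `R₀`, than the norm of all points of the support of `L`, and than `‖cc (ι x)‖`, `‖zz (ι x)‖` for `‖x‖ ≤ R₀`. -/
def StLFF : Prop := ∀ (k : ℕ), 1 ≤ k → ∀ ι : EE (k + 1) → WW (k + 1), ContDiff ℝ ∞ ι →
  Isotropic ι → StdInfty ι →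
  (∀ x u, cc (fderiv ℝ ι x u) = 0 → zz (fderiv ℝ ι x u) = 0 → u = 0) →
  (∀ x x', cc (ι x) = cc (ι x') → zz (ι x) = zz (ι x') → x = x') →
  ∃ (e : EE (k + 1) → EE (k + 1)) (L : EE k × ℂ → ℂ) (R₀ R₁ : ℝ), 0 < R₀ ∧ R₀ ≤ R₁ ∧
    ContDiff ℝ ∞ e ∧ ContDiff ℝ ∞ L ∧ (∀ x, R₀ ≤ ‖x‖ → ι x = (x, 0)) ∧
    (∀ x, R₀ ≤ ‖x‖ → e x = mk (0, 1)) ∧ (∀ q, R₁ ≤ ‖q‖ → L q = 0) ∧
    (∀ x, ‖x‖ ≤ R₀ → ‖cc (ι x)‖ < R₁ ∧ ‖zz (ι x)‖ < R₁) ∧
    (∀ x, cc (fderiv ℝ ι x (e x)) = 0) ∧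
    ∀ x, zz (fderiv ℝ ι x (e x)) = Complex.exp (L (cc (ι x), zz (ι x)))

/-- PRM (about 200 lines): the parametrization of the Lagrangian by trajectories.  Hypotheses: hFLB hPFL hSMN.
PROOF.  `e - mk (0,1)` has compact support, so `e` is Lipschitz; StFLB gives its flow `g s x` (smooth, group law by uniqueness).  `d/ds cc (ι (g s x)) = cc (Dι (e)) = 0`, so `cc (ι (g s x)) = cc (ι x)`, and `d/ds zz (ι (g s x)) = zz (Dι e) = V (1, cc ι) (zz ι)`, so `zz (ι (g s x)) = Φ (1, cc (ι x)) s (zz (ι x))` (uniqueness in StPFL).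
`Θ x = g (lt x + R) (mk (hd x, -R))`.  `‖mk (c, -R)‖ ≥ R ≥ R₀`, so `ι (mk (c, -R)) = (mk (c, -R), 0)`, with `cc = c` and `zz = -R`.  This gives the formulas for `cc (ι (Θ x))`, `zz (ι (Θ x))`.
`Θ x = x` for `lt x ≤ -R`: the curve `s ↦ mk (c, -R + s)`, `s ≤ 0`, has norm `≥ R ≥ R₀`, there `e = mk (0,1)`, so it is the trajectory (uniqueness, as in StPFL (4)).  Generally `(*)`: if `lt q ≤ -R` then `g s q = q + mk (0, s)` for `0 ≤ s ≤ -R - lt q`.
Surjective: let `y` be a point, `c = cc (ι y)`.  By `Good` and StSMN (1) there is `T ≥ 0` with `Re Φ (1, c) (-T) (zz (ι y)) ≤ -R`.  `q = g (-T) y` has `cc (ι q) = c`, `Re zz (ι q) ≤ -R`.  If `‖q‖ ≤ R₀` then `‖zz (ι q)‖ < R`, contradiction; so `ι q = (q, 0)`, `hd q = c`, `lt q ≤ -R`, `q = mk (c, lt q)`,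
and `g (-R - lt q) q = mk (c, -R)` by `(*)`.  So `y = g T q = g (T + R + lt q) (mk (c, -R)) = Θ (mk (c, T + lt q))`.
Last claim: `ι (Θ x) = (Θ x, 0)` as soon as `‖Θ x‖ ≥ R₀`, i.e. if `‖cc (ι (Θ x))‖ ≥ R` or `‖zz (ι (Θ x))‖ ≥ R`; this holds if `‖hd x‖ ≥ R`, if `lt x ≤ -R`, and if `lt x ≥ S` (hypothesis on `S`).  Take `R₂ = R + S + …` (`norm_le_add`). -/
def StPRM : Prop := ∀ (k : ℕ) (ι : EE (k + 1) → WW (k + 1)) (e : EE (k + 1) → EE (k + 1))
  (V : ℝ × EE k → ℂ → ℂ) (Φ : ℝ × EE k → ℝ → ℂ → ℂ) (R₀ R S : ℝ), PF V R → PFl V Φ →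
  (∀ p, Good Φ R p) → (∀ p s, S ≤ s → R ≤ (Φ p (s + R) (-R)).re) → 0 < R₀ → R₀ ≤ R →
  ContDiff ℝ ∞ ι → ContDiff ℝ ∞ e → (∀ x, R₀ ≤ ‖x‖ → ι x = (x, 0)) →
  (∀ x, R₀ ≤ ‖x‖ → e x = mk (0, 1)) → (∀ x, ‖x‖ ≤ R₀ → ‖cc (ι x)‖ < R ∧ ‖zz (ι x)‖ < R) →
  (∀ x, cc (fderiv ℝ ι x (e x)) = 0) →
  (∀ x, zz (fderiv ℝ ι x (e x)) = V (1, cc (ι x)) (zz (ι x))) →
  ∃ (Θ : EE (k + 1) → EE (k + 1)) (R₂ : ℝ), ContDiff ℝ ∞ Θ ∧ Function.Surjective Θ ∧
    (∀ x, lt x ≤ -R → Θ x = x) ∧ (∀ x, cc (ι (Θ x)) = hd x) ∧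
    (∀ x, zz (ι (Θ x)) = Φ (1, hd x) (lt x + R) (-R)) ∧ ∀ x, R₂ ≤ ‖x‖ → (ι (Θ x)).2 = 0

/-! ### Part V: assembly -/

/-- T0 (about 250 lines): the theorem for the standard subspace.  Hypotheses: hIET hPFL hSGO hCUR hLGL hUNA hLFF hPRM.
PROOF.  StLFF gives `e, L, R₀, R₁`.  `τ t = smoothTransition t * smoothTransition (3 - t)`: smooth, `τ 0 = 0`, `τ 1 = 1`, `τ t = 0` for `t ≥ 3` and `t ≤ 0`.  `R = R₁ + 3`, `V p z = exp (τ p.1 * L (p.2, z))`, `p = (t, c) : ℝ × EE k`: `PF V R`.  StPFL gives `Φ`, StSGO gives `Good`, `a`, `S`; StPRM (`V (1, c) z = exp (L (c, z))`) gives `Θ, R₂`.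
`S₁ = max S R₂`, `γ p s = Φ p (s + R) (-R)`: the hypotheses of StCUR hold with `S₁` (`deriv (γ p) s = V p _ ≠ 0`; `γ p s = s` for `‖p‖ ≥ R` or `s ≤ -R` by StPFL).  StCUR gives `ζ, σ, S'`, StLGL gives `ι' t` and a radius `R'`.
At `t = 1`: `p = (1, c)`.  `zz (ι (Θ (mk (c, s)))) = γ p s`; for large `s` the left side is real, so `Im (a p) = 0`; StUNA (2) for `ι ∘ Θ` (isotropic: chain rule; `cc = hd x`; second component `0` for `‖x‖ ≥ R₂`) gives the area condition on `[-S₁, S₁]`.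
So `ζ p s = γ p (σ p s)`.  Let `Σ x = mk (hd x, σ (1, hd x) (lt x))` (smooth, surjective) and `ι'' = ι ∘ Θ ∘ Σ`: smooth, isotropic, `cc (ι'' x) = hd x`, `zz (ι'' x) = ζ (1, hd x) (lt x)`, `ι'' x = (x, 0)` for `lt x ≤ -R`.  By StUNA (1) `ι' 1 = ι''`, so `range (ι' 1) = range ι`.
At `t = 0`: `V (0, c) = 1`, so `γ p s = s`, `a p = 0` and the area is `0`: `ζ p s = σ p s`.  `ι₀ x = (mk (hd x, σ (0, hd x) (lt x)), 0)` is isotropic; StUNA (1) gives `ι' 0 = ι₀`, with range `Plane (k + 1)` (`σ p` is surjective).  StIET (radius `R'`, all `t`) gives the claim. -/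
def StT0 : Prop := ∀ (k : ℕ), 1 ≤ k → ∀ ι : EE (k + 1) → WW (k + 1), ContDiff ℝ ∞ ι →
  Isotropic ι → StdInfty ι →
  (∀ x u, cc (fderiv ℝ ι x u) = 0 → zz (fderiv ℝ ι x u) = 0 → u = 0) →
  (∀ x x', cc (ι x) = cc (ι x') → zz (ι x) = zz (ι x') → x = x') →
  HamIsotopic (Plane (k + 1)) (Set.range ι)

/-- NRL (about 250 lines): linear normal form of the isotropic subspace.
PROOF.  Replace `V` by a subspace of dimension exactly `k` (still isotropic; the last claim becomes stronger).  `snd` is injective on `V` (hypothesis `(u, 0) ∈ V → u = 0`); `Y = snd (V)` has dimension `k` in `EE (k+1)`; let `ν` be a unit vector orthogonal to `Y`; then `Y = νᗮ`.  Let `A₀ : EE (k+1) →L EE (k+1)` be linear with `(A₀ y, y) ∈ V` for `y ∈ Y`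
and `A₀ ν = 0` (inverse of `snd` on `V`, composed with the orthogonal projection `P` on `Y`).  Isotropy of `V`: `⟪A₀ y, y'⟫ = ⟪y, A₀ y'⟫` for `y, y' ∈ Y`.  `A = A₀ P + P A₀† Q`, `Q = 1 - P`: symmetric (`A = P A₀ P + Q A₀ P + P A₀† Q`, the first summand is symmetric, the other two are adjoint to each other), and `A y = A₀ y` for `y ∈ Y`.
(An explicit variant: `A x = A₀ (P x) + ⟪ν, x⟫ • m` with `m ∈ Y` the vector with `⟪m, y⟫ = ⟪ν, A₀ y⟫` for `y ∈ Y`.)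
`U`: a linear isometry of `EE (k+1)` with `U ν = mk (0, 1)` (identity if `ν = mk (0,1)`, otherwise the reflection in `(ν - mk (0,1))ᗮ`, `reflection_sub`).  `T (x, y) = (U (x - A y), U y)`: a continuous linear equivalence (inverse `(x, y) ↦ (U⁻¹ x + A U⁻¹ y, U⁻¹ y)`), `om (T a) (T b) = om a b` (`U` preserves inner products, `A` is symmetric), `T (x, 0) = (U x, 0)`.
If `cc (T w) = 0` and `zz (T w) = 0`, `w = (x, y)`: then `U (x - A y) = 0` (its `hd` and `lt` vanish), so `x = A y`, and `0 = lt (U y) = ⟪U y, U ν⟫ = ⟪y, ν⟫`, so `y ∈ Y` and `w = (A₀ y, y) ∈ V`. -/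
def StNRL : Prop := ∀ (k : ℕ) (V : Submodule ℝ (WW (k + 1))), (∀ a ∈ V, ∀ b ∈ V, om a b = 0) →
  k ≤ Module.finrank ℝ V → (∀ u : EE (k + 1), ((u, 0) : WW (k + 1)) ∈ V → u = 0) →
  ∃ (T : WW (k + 1) ≃L[ℝ] WW (k + 1)) (U : EE (k + 1) ≃ₗᵢ[ℝ] EE (k + 1)),
    (∀ a b, om (T a) (T b) = om a b) ∧ (∀ x, T (x, 0) = (U x, 0)) ∧
    ∀ w, cc (T w) = 0 → zz (T w) = 0 → w ∈ V

/-- FIN (about 200 lines): the theorem.  Hypotheses: hNRL hT0.
PROOF.  Write `n = k + 1`.  If `(u, 0) ∈ V`, take `x` of norm `> R`: `fderiv ℝ ι x u = (u, 0) ∈ V`, so `u = 0`.  StNRL gives `T, U`.  `ι' x = T (ι (U⁻¹ x))`: smooth; isotropic; standard at infinity (`T (U⁻¹ x, 0) = (x, 0)`); if `cc (Dι'(x) u) = 0`, `zz (Dι'(x) u) = 0` then `Dι(U⁻¹ x) (U⁻¹ u) ∈ V`, so `u = 0`; if `cc`, `zz` of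
`ι' x`, `ι' x'` agree then `ι (U⁻¹ x) - ι (U⁻¹ x') ∈ V` (linearity of `T`, `cc`, `zz`), so `x = x'`.  StT0: `HamIsotopic (Plane n) (range ι')` with `H, φ`.  Conjugate: `H' t w = H t (T w)`, `φ' t w = T⁻¹ (φ t (T w))` is a compactly supported Hamiltonian isotopy: `v' = T⁻¹ v`, `om (T⁻¹ v) b = om v (T b) = DH_t(φ t (T w)) (T b) = DH'_t(φ' t w) b`.
`φ' 1 '' Plane = T⁻¹ (φ 1 '' (T '' Plane)) = T⁻¹ (φ 1 '' Plane) = T⁻¹ (range ι') = range ι` (`T '' Plane = Plane`, as `T (x, 0) = (U x, 0)` and `U` is surjective). -/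
def StT : Prop := ∀ (n : ℕ), 2 ≤ n → ∀ V : Submodule ℝ (WW n), (∀ a ∈ V, ∀ b ∈ V, om a b = 0) →
  n ≤ Module.finrank ℝ V + 1 → ∀ ι : EE n → WW n, ContDiff ℝ ∞ ι → Isotropic ι → StdInfty ι →
  (∀ x u, fderiv ℝ ι x u ∈ V → u = 0) → (∀ x x', ι x - ι x' ∈ V → x = x') →
  HamIsotopic (Plane n) (Set.range ι)

/-- COR (about 150 lines): Lagrangians in `ℝ⁶` transverse to a fixed three-dimensional subspace.  Hypotheses: hT hBIJ.
PROOF.  `W` is odd-dimensional, so there is `r ∈ W`, `r ≠ 0`, with `om r w = 0` for all `w ∈ W` (the map `W → W*`, `w ↦ om w ·`, is given in a basis by a skew `3 × 3` matrix, whose determinant is `0`).  Take `r' ∈ W` not a multiple of `r`, `V = span {r, r'}`: isotropic of dimension `2`, `V ≤ W`.  `fderiv ℝ ι x u ∈ V → u = 0` is clear.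
Injectivity: `(u, 0) ∈ W → u = 0` (take `x` large), so `Plane` and `W` are complements (dimensions `3 + 3 = 6`); let `π : WW 3 →L[ℝ] EE 3` be the projection along `W`, `π (x, 0) = x`, `π w = 0 ↔ w ∈ W`.  `F r x = π (ι x)` (constant in `r`) has injective derivative and `F r x = x` for large `‖x‖`; StBIJ: `F r` is injective.  If `ι x - ι x' ∈ V ≤ W` then
`π (ι x) = π (ι x')`, so `x = x'`.  StT with `n = 3`. -/
def StCOR : Prop := ∀ W : Submodule ℝ (WW 3), Module.finrank ℝ W = 3 →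
  ∀ ι : EE 3 → WW 3, ContDiff ℝ ∞ ι → Isotropic ι → StdInfty ι →
  (∀ x u, fderiv ℝ ι x u ∈ W → u = 0) → HamIsotopic (Plane 3) (Set.range ι)

/-- SYM (about 100 lines): compactly supported symplectomorphisms (not assumed isotopic to the identity) do not knot the plane.  Hypothesis: hIET.
PROOF.  Let `φ w = w` for `‖w‖ ≥ R`, `R > 0`, and `v : EE n` with `‖v‖ = R` (`n ≥ 2`).  `ι t x = φ (x, (1 - t) • v) - (0, (1 - t) • v)`: smooth, isotropic and immersive (`Dι_t(x) u = Dφ (u, 0)`, `φ` symplectic), injective (`φ` has the left inverse `ψ`), `ι t x = (x, 0)` for `‖x‖ ≥ R`.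
`ι 0 x = (x, 0)` since `‖(x, v)‖ ≥ ‖v‖ = R`, so `range (ι 0) = Plane n`; `ι 1 x = φ (x, 0)`, so `range (ι 1) = φ '' Plane n`.  StIET. -/
def StSYM : Prop := ∀ (n : ℕ), 2 ≤ n → ∀ (φ ψ : WW n → WW n) (R : ℝ), ContDiff ℝ ∞ φ →
  (∀ w, ψ (φ w) = w) → (∀ w a b, om (fderiv ℝ φ w a) (fderiv ℝ φ w b) = om a b) →
  (∀ w, R ≤ ‖w‖ → φ w = w) → HamIsotopic (Plane n) (φ '' Plane n)

end Pool.Agent.Helper14.LE
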